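import Mathlib

set_option autoImplicit false
set_option linter.style.haveILetI false

/-!
# Ultrapowers of the ordered set of natural numbers under the continuum hypothesis

Back-and-forth: under the continuum hypothesis the ultrapowers of `(ℕ, ≤)` with respect to any two
nonprincipal ultrafilters are order isomorphic. We work with functions, not with classes.
-/

namespace Pool.Agent.Q213.EP

open Set Filter Cardinal

/-- `f ≤ g` modulo the ultrafilter -/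
def lu (U : Ultrafilter ℕ) (f g : ℕ → ℕ) : Prop := {n | f n ≤ g n} ∈ U

/-- shift of the values -/
def sh (f : ℕ → ℕ) (k : ℕ) : ℕ → ℕ := fun n => f n + k

variable {U V : Ultrafilter ℕ}

theorem lu_of_le {f g : ℕ → ℕ} (h : ∀ n, f n ≤ g n) : lu U f g := Filter.univ_mem' h

theorem lu_trans {f g h : ℕ → ℕ} (h1 : lu U f g) (h2 : lu U g h) : lu U f h := by
  filter_upwards [h1, h2] with n h3 h4
  exact le_trans h3 h4

theorem not_lu {f g : ℕ → ℕ} : ¬ lu U f g ↔ lu U (sh g 1) f := by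
  unfold lu
  rw [← Ultrafilter.compl_mem_iff_notMem]
  have : ({n | f n ≤ g n} : Set ℕ)ᶜ = {n | sh g 1 n ≤ f n} := by
    ext n
    simp only [mem_compl_iff, mem_ofPred_eq, sh]
    omega
  rw [this]

theorem lu_total (f g : ℕ → ℕ) : lu U f g ∨ lu U g f := by
  by_cases h : lu U f g
  · exact Or.inl h
  · right
    refine lu_trans (lu_of_le (fun n => ?_)) (not_lu.1 h)
    exact Nat.le_succ _

theorem lu_sh_sh {f g : ℕ → ℕ} (k : ℕ) : lu U (sh f k) (sh g k) ↔ lu U f g := by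
  unfold lu sh
  simp

theorem sh_sh (f : ℕ → ℕ) (k l : ℕ) : sh (sh f k) l = sh f (k + l) := by
  funext n; simp [sh, add_assoc]

theorem lu_congr {f f' g g' : ℕ → ℕ} (hf : {n | f n = f' n} ∈ U) (hg : {n | g n = g' n} ∈ U) :
    lu U f g ↔ lu U f' g' := by
  constructor
  · intro h
    filter_upwards [h, hf, hg] with n h1 h2 h3
    rw [← h2, ← h3]; exact h1
  · intro h
    filter_upwards [h, hf, hg] with n h1 h2 h3
    rw [h2, h3]; exact h1

theorem eq_refl_mem (f : ℕ → ℕ) : {n | f n = f n} ∈ U := Filter.univ_mem' (fun _ => rfl)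

theorem eq_sh {f f' : ℕ → ℕ} (hf : {n | f n = f' n} ∈ U) (k : ℕ) :
    {n | sh f k n = sh f' k n} ∈ U := by
  filter_upwards [hf] with n h1
  show f n + k = f' n + k
  rw [h1]

/-- the finite partial isomorphisms, preserving the finite distances -/
def Good (U V : Ultrafilter ℕ) (P : Set ((ℕ → ℕ) × (ℕ → ℕ))) : Prop :=
  ∀ p ∈ P, ∀ q ∈ P, ∀ k : ℕ, lu U (sh p.1 k) q.1 ↔ lu V (sh p.2 k) q.2

theorem Good.two {P : Set ((ℕ → ℕ) × (ℕ → ℕ))} (h : Good U V P) {p q : (ℕ → ℕ) × (ℕ → ℕ)}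
    (hp : p ∈ P) (hq : q ∈ P) (k l : ℕ) :
    lu U (sh p.1 k) (sh q.1 l) ↔ lu V (sh p.2 k) (sh q.2 l) := by
  rcases le_or_gt l k with hlk | hlk
  · have e : ∀ f : ℕ → ℕ, sh f k = sh (sh f (k - l)) l := fun f => by
      rw [sh_sh]; congr 1; omega
    rw [e p.1, e p.2, lu_sh_sh, lu_sh_sh]
    exact h p hp q hq _
  · have e : ∀ f : ℕ → ℕ, sh (sh f l) 1 = sh (sh f (l + 1 - k)) k := fun f => by
      rw [sh_sh, sh_sh]; congr 1; omega
    rw [← not_iff_not, not_lu, not_lu, e q.1, e q.2, lu_sh_sh, lu_sh_sh]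
    exact h q hq p hp _

theorem lu_sh_self (f : ℕ → ℕ) (k : ℕ) : lu U (sh f k) f ↔ k = 0 := by
  constructor
  · intro h
    obtain ⟨n, hn⟩ := Ultrafilter.nonempty_of_mem h
    have : f n + k ≤ f n := hn
    omega
  · rintro rfl
    exact lu_of_le (fun n => le_refl _)

theorem Good.ins {P : Set ((ℕ → ℕ) × (ℕ → ℕ))} (h : Good U V P) {f f' : ℕ → ℕ}
    (h1 : ∀ p ∈ P, ∀ k : ℕ, lu U (sh p.1 k) f ↔ lu V (sh p.2 k) f')
    (h2 : ∀ p ∈ P, ∀ k : ℕ, lu U (sh f k) p.1 ↔ lu V (sh f' k) p.2) :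
    Good U V (insert (f, f') P) := by
  intro p hp q hq k
  rcases mem_insert_iff.1 hp with rfl | hp <;> rcases mem_insert_iff.1 hq with rfl | hq
  · rw [lu_sh_self, lu_sh_self]
  · exact h2 q hq k
  · exact h1 p hp k
  · exact h p hp q hq k

/-- countable saturation -/
theorem saturation (hV : ∀ m : ℕ, {n | m ≤ n} ∈ V) (A B : Set (ℕ → ℕ)) (hA : A.Countable)
    (hB : B.Countable) (hne : A.Nonempty) (h : ∀ a ∈ A, ∀ b ∈ B, ∀ k : ℕ, lu V (sh a k) b) :
    ∃ f, (∀ a ∈ A, ∀ k : ℕ, lu V (sh a k) f) ∧ ∀ b ∈ B, ∀ k : ℕ, lu V (sh f k) b := by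
  classical
  obtain ⟨α, rfl⟩ := hA.exists_eq_range hne
  rcases B.eq_empty_or_nonempty with rfl | hBne
  · refine ⟨fun n => (Finset.range (n + 1)).sup (fun j => α j n) + n, ?_, fun b hb => absurd hb
      (notMem_empty b)⟩
    rintro _ ⟨i, rfl⟩ k
    filter_upwards [hV i, hV k] with n hi hk
    show α i n + k ≤ (Finset.range (n + 1)).sup (fun j => α j n) + n
    have h1 : α i n ≤ (Finset.range (n + 1)).sup (fun j => α j n) :=
      Finset.le_sup (f := fun j => α j n) (Finset.mem_range.2 (Nat.lt_succ_of_le hi))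
    have h2 : k ≤ n := hk
    omega
  · obtain ⟨β, rfl⟩ := hB.exists_eq_range hBne
    let gd : ℕ → ℕ → Prop := fun n N => ∀ i ≤ N, ∀ j ≤ N, α i n + 2 * N ≤ β j n
    let N : ℕ → ℕ := fun n => Nat.findGreatest (gd n) n
    have hN : ∀ M : ℕ, {n | M ≤ N n} ∈ V := by
      intro M
      have h1 : {n | gd n M} ∈ V := by
        have h2 : (⋂ i ∈ Finset.range (M + 1), ⋂ j ∈ Finset.range (M + 1),
            {n | α i n + 2 * M ≤ β j n}) ∈ V := by
          refine (Filter.biInter_finset_mem _).2 fun i _ => (Filter.biInter_finset_mem _).2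
            fun j _ => h _ ⟨i, rfl⟩ _ ⟨j, rfl⟩ (2 * M)
        filter_upwards [h2] with n hn i hi j hj
        simp only [mem_iInter, Finset.mem_range] at hn
        exact hn i (Nat.lt_succ_of_le hi) j (Nat.lt_succ_of_le hj)
      filter_upwards [h1, hV M] with n h2 h3
      exact Nat.le_findGreatest h3 h2
    have hgd : ∀ n, N n ≠ 0 → gd n (N n) := fun n hn => Nat.findGreatest_of_ne_zero rfl hn
    refine ⟨fun n => (Finset.range (N n + 1)).sup (fun j => α j n) + N n, ?_, ?_⟩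
    · rintro _ ⟨i, rfl⟩ k
      filter_upwards [hN i, hN k] with n hi hk
      show α i n + k ≤ (Finset.range (N n + 1)).sup (fun j => α j n) + N n
      have h1 : α i n ≤ (Finset.range (N n + 1)).sup (fun j => α j n) :=
        Finset.le_sup (f := fun j => α j n) (Finset.mem_range.2 (Nat.lt_succ_of_le hi))
      have h2 : k ≤ N n := hk
      omega
    · rintro _ ⟨j, rfl⟩ k
      filter_upwards [hN j, hN k, hN 1] with n hj hk h1
      show (Finset.range (N n + 1)).sup (fun j => α j n) + N n + k ≤ β j n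
      have h1' : 1 ≤ N n := h1
      have hk' : k ≤ N n := hk
      have h2 := hgd n (by omega)
      obtain ⟨i, hi, hi2⟩ := Finset.exists_mem_eq_sup (Finset.range (N n + 1))
        ⟨0, Finset.mem_range.2 (Nat.succ_pos _)⟩ (fun j => α j n)
      have h3 := h2 i (Nat.lt_succ_iff.1 (Finset.mem_range.1 hi)) j hj
      rw [hi2]
      omega

/-- the two functions have bounded distance modulo `U`, hence constant distance -/
theorem near {f a : ℕ → ℕ} (h1 : ¬ ∀ k : ℕ, lu U (sh a k) f) (h2 : ¬ ∀ k : ℕ, lu U (sh f k) a) :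
    (∃ k, {n | f n = sh a k n} ∈ U) ∨ ∃ k, {n | a n = sh f k n} ∈ U := by
  push Not at h1 h2
  obtain ⟨k1, hk1⟩ := h1
  obtain ⟨k2, hk2⟩ := h2
  rw [not_lu] at hk1 hk2
  have h3 : (⋃ v ∈ (Finset.range (k1 + k2) : Set ℕ), {n | f n + k2 = a n + v}) ∈ U := by
    filter_upwards [hk1, hk2] with n h4 h5
    have h4' : f n + 1 ≤ a n + k1 := h4
    have h5' : a n + 1 ≤ f n + k2 := h5
    simp only [mem_iUnion, Finset.coe_range, mem_Iio, exists_prop]
    refine ⟨f n + k2 - a n, by omega, ?_⟩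
    show f n + k2 = a n + (f n + k2 - a n)
    omega
  rw [Ultrafilter.finite_biUnion_mem_iff (Finset.finite_toSet _)] at h3
  obtain ⟨v, -, hv⟩ := h3
  rcases le_or_gt k2 v with h | h
  · left
    refine ⟨v - k2, ?_⟩
    filter_upwards [hv] with n hn
    have hn' : f n + k2 = a n + v := hn
    show f n = a n + (v - k2)
    omega
  · right
    refine ⟨k2 - v, ?_⟩
    filter_upwards [hv] with n hn
    have hn' : f n + k2 = a n + v := hn
    show a n = f n + (k2 - v)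
    omega

/-- one step of the back-and-forth -/
theorem Good.step (hV : ∀ m : ℕ, {n | m ≤ n} ∈ V) {P : Set ((ℕ → ℕ) × (ℕ → ℕ))}
    (hc : P.Countable) (h0 : ((fun _ => 0, fun _ => 0) : (ℕ → ℕ) × (ℕ → ℕ)) ∈ P)
    (h : Good U V P) (f : ℕ → ℕ) : ∃ f', Good U V (insert (f, f') P) := by
  classical
  by_cases hA : ∃ p ∈ P, ∃ k, {n | f n = sh p.1 k n} ∈ U
  · obtain ⟨a, ha, k0, hk0⟩ := hA
    refine ⟨sh a.2 k0, h.ins (fun p hp k => ?_) (fun p hp k => ?_)⟩
    · rw [lu_congr (eq_refl_mem _) hk0]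
      exact h.two hp ha k k0
    · rw [lu_congr (eq_sh hk0 k) (eq_refl_mem _), sh_sh, sh_sh]
      exact h a ha p hp _
  by_cases hB : ∃ p ∈ P, ∃ k, {n | p.1 n = sh f k n} ∈ U
  · obtain ⟨a, ha, k0, hk0⟩ := hB
    have h1 : lu V (sh (fun _ => 0) k0) a.2 := by
      rw [← h _ h0 a ha k0]
      filter_upwards [hk0] with n hn
      have hn' : a.1 n = f n + k0 := hn
      show 0 + k0 ≤ a.1 n
      omega
    let f' : ℕ → ℕ := fun n => a.2 n - k0
    have h2 : {n | a.2 n = sh f' k0 n} ∈ V := by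
      filter_upwards [h1] with n hn
      have hn' : 0 + k0 ≤ a.2 n := hn
      show a.2 n = a.2 n - k0 + k0
      omega
    refine ⟨f', h.ins (fun p hp k => ?_) (fun p hp k => ?_)⟩
    · rw [← lu_sh_sh (U := U) k0, ← lu_sh_sh (U := V) k0, ← lu_congr (eq_refl_mem _) hk0,
        ← lu_congr (eq_refl_mem _) h2, sh_sh, sh_sh]
      exact h p hp a ha _
    · rw [← lu_sh_sh (U := U) k0, ← lu_sh_sh (U := V) k0, sh_sh, sh_sh, add_comm k k0, ← sh_sh,
        ← sh_sh, ← lu_congr (eq_sh hk0 k) (eq_refl_mem _), ← lu_congr (eq_sh h2 k) (eq_refl_mem _)]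
      exact h.two ha hp k k0
  push Not at hA hB
  let A : Set ((ℕ → ℕ) × (ℕ → ℕ)) := {p ∈ P | ∀ k : ℕ, lu U (sh p.1 k) f}
  let B : Set ((ℕ → ℕ) × (ℕ → ℕ)) := {p ∈ P | ∀ k : ℕ, lu U (sh f k) p.1}
  have hAB : ∀ p ∈ P, p ∈ A ∨ p ∈ B := by
    intro p hp
    by_contra hcon
    push Not at hcon
    rcases near (U := U) (f := f) (a := p.1) (fun h => hcon.1 ⟨hp, h⟩) (fun h => hcon.2 ⟨hp, h⟩)
      with ⟨k, hk⟩ | ⟨k, hk⟩
    · exact hA p hp k hk
    · exact hB p hp k hk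
  have h0A : ((fun _ => 0, fun _ => 0) : (ℕ → ℕ) × (ℕ → ℕ)) ∈ A := by
    rcases hAB _ h0 with h1 | h1
    · exact h1
    · exfalso
      have h2 := h1.2 1
      obtain ⟨n, hn⟩ := Ultrafilter.nonempty_of_mem h2
      have hn' : f n + 1 ≤ 0 := hn
      omega
  obtain ⟨f', hf1, hf2⟩ := saturation hV (Prod.snd '' A) (Prod.snd '' B)
    ((hc.mono (sep_subset _ _)).image _) ((hc.mono (sep_subset _ _)).image _) ⟨_, _, h0A, rfl⟩ (by
      rintro _ ⟨a, ha, rfl⟩ _ ⟨b, hb, rfl⟩ k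
      rw [← h a ha.1 b hb.1 k]
      exact lu_trans (ha.2 k) (hb.2 0))
  have key1 : ∀ (W : Ultrafilter ℕ) (x y : ℕ → ℕ), lu W (sh x 1) y → ∀ k : ℕ, ¬ lu W (sh y k) x := by
    intro W x y h1 k h2
    obtain ⟨n, hn⟩ := Ultrafilter.nonempty_of_mem (Filter.inter_mem h1 h2)
    have h3 : x n + 1 ≤ y n := hn.1
    have h4 : y n + k ≤ x n := hn.2
    omega
  refine ⟨f', h.ins (fun p hp k => ?_) (fun p hp k => ?_)⟩
  · rcases hAB p hp with h1 | h1
    · exact iff_of_true (h1.2 k) (hf1 _ ⟨p, h1, rfl⟩ k)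
    · exact iff_of_false (key1 U _ _ (h1.2 1) k) (key1 V _ _ (hf2 _ ⟨p, h1, rfl⟩ 1) k)
  · rcases hAB p hp with h1 | h1
    · exact iff_of_false (key1 U _ _ (h1.2 1) k) (key1 V _ _ (hf1 _ ⟨p, h1, rfl⟩ 1) k)
    · exact iff_of_true (h1.2 k) (hf2 _ ⟨p, h1, rfl⟩ k)

theorem Good.swap {P : Set ((ℕ → ℕ) × (ℕ → ℕ))} (h : Good U V P) :
    Good V U (Prod.swap '' P) := by
  rintro _ ⟨p, hp, rfl⟩ _ ⟨q, hq, rfl⟩ k
  exact (h p hp q hq k).symm

/-- one step in both directions -/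
theorem Good.step2 (hU : ∀ m : ℕ, {n | m ≤ n} ∈ U) (hV : ∀ m : ℕ, {n | m ≤ n} ∈ V)
    {P : Set ((ℕ → ℕ) × (ℕ → ℕ))}
    (hc : P.Countable) (h0 : ((fun _ => 0, fun _ => 0) : (ℕ → ℕ) × (ℕ → ℕ)) ∈ P)
    (h : Good U V P) (s : ℕ → ℕ) :
    ∃ Q : Set ((ℕ → ℕ) × (ℕ → ℕ)), P ⊆ Q ∧ Q.Countable ∧ Good U V Q ∧ (∃ t, (s, t) ∈ Q) ∧
      ∃ t, (t, s) ∈ Q := by
  obtain ⟨f', hf⟩ := h.step hV hc h0 s
  have h1 : (Prod.swap '' (insert (s, f') P)).Countable := (hc.insert (s, f')).image Prod.swap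
  obtain ⟨f'', hf2⟩ := hf.swap.step (V := U) hU h1 ⟨_, mem_insert_of_mem _ h0, rfl⟩ s
  refine ⟨Prod.swap '' (insert (s, f'') (Prod.swap '' (insert (s, f') P))), ?_, ?_, hf2.swap,
    ?_, ?_⟩
  · intro p hp
    exact ⟨p.swap, mem_insert_of_mem _ ⟨p, mem_insert_of_mem _ hp, rfl⟩, Prod.swap_swap p⟩
  · exact (h1.insert (s, f'')).image Prod.swap
  · exact ⟨f', ⟨(f', s), mem_insert_of_mem _ ⟨(s, f'), mem_insert _ _, rfl⟩, rfl⟩⟩
  · exact ⟨f'', ⟨(s, f''), mem_insert _ _, rfl⟩⟩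

end Pool.Agent.Q213.EP
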