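import Pool.Agent.Q213.EP.C

set_option autoImplicit false
set_option linter.style.haveILetI false

/-!
# Ultrapowers of the ordered set of natural numbers under the continuum hypothesis, II
-/

namespace Pool.Agent.Q213.EP

open Set Filter Cardinal

/-- the recursive construction of an increasing family of sets -/
noncomputable def PS {I X : Type} [LinearOrder I] [WellFoundedLT I] (nx : I → Set X → Set X)
    (z : Set X) : I → Set X :=
  WellFounded.fix (wellFounded_lt : WellFounded (fun a b : I => a < b))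
    (fun i p => nx i (z ∪ ⋃ (j : I) (h : j < i), p j h))

theorem PS_eq {I X : Type} [LinearOrder I] [WellFoundedLT I] (nx : I → Set X → Set X)
    (z : Set X) (i : I) : PS nx z i = nx i (z ∪ ⋃ (j : I) (_ : j < i), PS nx z j) := by
  conv_lhs => unfold PS
  rw [WellFounded.fix_eq]
  rfl

/-- **Back-and-forth of length `ω₁`.** -/
theorem iso_of_CH (hCH : (𝔠 : Cardinal.{0}) = ℵ₁) {U V : Ultrafilter ℕ} (hU : ∀ m : ℕ, {n | m ≤ n} ∈ U)
    (hV : ∀ m : ℕ, {n | m ≤ n} ∈ V) :
    ∃ G : Set ((ℕ → ℕ) × (ℕ → ℕ)), Good U V G ∧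
      ((fun _ => 0, fun _ => 0) : (ℕ → ℕ) × (ℕ → ℕ)) ∈ G ∧ (∀ s, ∃ t, (s, t) ∈ G) ∧
      ∀ s, ∃ t, (t, s) ∈ G := by
  classical
  let I : Type := (ℵ₁ : Cardinal.{0}).ord.ToType
  have hIc : #I = #(ℕ → ℕ) := by
    have h1 : #(ℕ → ℕ) = 𝔠 := by simp
    rw [Cardinal.mk_toType, Cardinal.card_ord, h1]
    exact hCH.symm
  obtain ⟨e⟩ := Cardinal.eq.1 hIc
  let z0 : (ℕ → ℕ) × (ℕ → ℕ) := (fun _ => 0, fun _ => 0)
  let OK : Set ((ℕ → ℕ) × (ℕ → ℕ)) → Prop := fun Q => Q.Countable ∧ z0 ∈ Q ∧ Good U V Q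
  have hst : ∀ (i : I) (Q : Set ((ℕ → ℕ) × (ℕ → ℕ))), ∃ Q', OK Q → (Q ⊆ Q' ∧ OK Q' ∧
      (∃ t, (e i, t) ∈ Q') ∧ ∃ t, (t, e i) ∈ Q') := by
    intro i Q
    by_cases h : OK Q
    · obtain ⟨Q', h1, h2, h3, h4, h5⟩ := h.2.2.step2 hU hV h.1 h.2.1 (e i)
      exact ⟨Q', fun _ => ⟨h1, ⟨h2, h1 h.2.1, h3⟩, h4, h5⟩⟩
    · exact ⟨Q, fun h' => absurd h' h⟩
  choose nx hnx using hst
  let P : I → Set ((ℕ → ℕ) × (ℕ → ℕ)) := PS nx {z0}
  have hP : ∀ i, P i = nx i ({z0} ∪ ⋃ (j : I) (_ : j < i), P j) := fun i => PS_eq nx {z0} i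
  have key : ∀ i, OK (P i) ∧ (∀ j < i, P j ⊆ P i) ∧ (∃ t, (e i, t) ∈ P i) ∧
      ∃ t, (t, e i) ∈ P i := by
    intro i
    induction i using WellFoundedLT.induction with
    | ind i ih =>
      have hOK : OK ({z0} ∪ ⋃ (j : I) (_ : j < i), P j) := by
        refine ⟨?_, Or.inl rfl, ?_⟩
        · refine (countable_singleton z0).union ?_
          have hcount : (Iio i).Countable := by
            have h1 : #(Iio i) < ℵ₁ := by
              have := Cardinal.mk_Iio_lt i (by
                rw [Ordinal.type_toType, Cardinal.mk_toType, Cardinal.card_ord])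
              rwa [Cardinal.mk_toType, Cardinal.card_ord] at this
            rw [← Cardinal.le_aleph0_iff_set_countable]
            exact Order.lt_succ_iff.1 (lt_of_lt_of_eq h1 Cardinal.succ_aleph0.symm)
          exact hcount.biUnion (fun j hj => (ih j hj).1.1)
        · -- any two elements are in a common good set
          have hz : ∀ j < i, z0 ∈ P j := fun j hj => (ih j hj).1.2.1
          have hg0 : Good U V {z0} := by
            rintro p rfl q rfl k
            rw [lu_sh_self, lu_sh_self]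
          intro p hp q hq k
          rcases hp with hp | hp
          · rw [mem_singleton_iff] at hp
            subst hp
            rcases hq with hq | hq
            · exact hg0 z0 rfl q hq k
            · simp only [mem_iUnion, exists_prop] at hq
              obtain ⟨j, hj, hq⟩ := hq
              exact (ih j hj).1.2.2 z0 (hz j hj) q hq k
          · simp only [mem_iUnion, exists_prop] at hp
            obtain ⟨j, hj, hp⟩ := hp
            rcases hq with hq | hq
            · rw [mem_singleton_iff] at hq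
              subst hq
              exact (ih j hj).1.2.2 p hp z0 (hz j hj) k
            · simp only [mem_iUnion, exists_prop] at hq
              obtain ⟨l, hl, hq⟩ := hq
              rcases lt_trichotomy j l with h | h | h
              · exact (ih l hl).1.2.2 p ((ih l hl).2.1 j h hp) q hq k
              · subst h
                exact (ih j hj).1.2.2 p hp q hq k
              · exact (ih j hj).1.2.2 p hp q ((ih j hj).2.1 l h hq) k
      obtain ⟨h1, h2, h3, h4⟩ := hnx i _ hOK
      rw [← hP i] at h1 h2 h3 h4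
      refine ⟨h2, fun j hj => ?_, h3, h4⟩
      intro p hp
      apply h1
      right
      simp only [mem_iUnion, exists_prop]
      exact ⟨j, hj, hp⟩
  have hne : Nonempty I := ⟨e.symm (fun _ => 0)⟩
  refine ⟨⋃ i, P i, ?_, ?_, ?_, ?_⟩
  · intro p hp q hq k
    obtain ⟨i, hi⟩ := mem_iUnion.1 hp
    obtain ⟨j, hj⟩ := mem_iUnion.1 hq
    rcases lt_trichotomy i j with h | h | h
    · exact (key j).1.2.2 p ((key j).2.1 i h hi) q hj k
    · subst h
      exact (key i).1.2.2 p hi q hj k
    · exact (key i).1.2.2 p hi q ((key i).2.1 j h hj) k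
  · exact mem_iUnion.2 ⟨Classical.choice hne, (key _).1.2.1⟩
  · intro s
    obtain ⟨t, ht⟩ := (key (e.symm s)).2.2.1
    rw [e.apply_symm_apply] at ht
    exact ⟨t, mem_iUnion.2 ⟨_, ht⟩⟩
  · intro s
    obtain ⟨t, ht⟩ := (key (e.symm s)).2.2.2
    rw [e.apply_symm_apply] at ht
    exact ⟨t, mem_iUnion.2 ⟨_, ht⟩⟩

end Pool.Agent.Q213.EP
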