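import Pool.Agent.Q213.EP.V

set_option autoImplicit false
set_option linter.style.haveILetI false

/-!
# Ultrafilters on the primes with prescribed lower cofinality
-/

namespace Pool.Agent.Q213.EP

open Set Filter Cardinal

/-- the countable set on which the independent family lives -/
abbrev DD : Type := Σ n : ℕ, ((Fin n → Bool) → ℕ)

/-- the independent family -/
def gg {I : Type} (r : I → ℕ → Bool) (i : I) (d : DD) : ℕ := d.2 (fun k => r i k)

theorem bx_nonempty {I : Type} (r : I → ℕ → Bool) (hr : Function.Injective r)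
    (c : Finset (I × ℕ)) (hc : Fn c) : (Bx (gg r) c).Nonempty := by
  classical
  have h1 : ∀ i j : I, ∃ k : ℕ, i ≠ j → r i k ≠ r j k := by
    intro i j
    by_cases h : i = j
    · exact ⟨0, fun h' => absurd h h'⟩
    · obtain ⟨k, hk⟩ := Function.ne_iff.1 (hr.ne h)
      exact ⟨k, fun _ => hk⟩
  choose k hk using h1
  let n : ℕ := (c ×ˢ c).sup (fun p => k p.1.1 p.2.1) + 1
  have hn : ∀ p ∈ c, ∀ q ∈ c, k p.1 q.1 < n := fun p hp q hq =>
    Nat.lt_succ_of_le (Finset.le_sup (f := fun p : (I × ℕ) × (I × ℕ) => k p.1.1 p.2.1)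
      (Finset.mem_product.2 ⟨hp, hq⟩ : (p, q) ∈ c ×ˢ c))
  let φ : (Fin n → Bool) → ℕ := fun t =>
    if h : ∃ p ∈ c, (fun k : Fin n => r p.1 k) = t then h.choose.2 else 0
  refine ⟨⟨n, φ⟩, ?_⟩
  intro p hp
  show φ (fun k => r p.1 k) = p.2
  have h : ∃ q ∈ c, (fun k : Fin n => r q.1 k) = (fun k : Fin n => r p.1 k) := ⟨p, hp, rfl⟩
  show (if h : ∃ q ∈ c, (fun k : Fin n => r q.1 k) = (fun k : Fin n => r p.1 k) then h.choose.2
    else 0) = p.2
  rw [dif_pos h]
  obtain ⟨h2, h3⟩ := h.choose_spec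
  apply hc _ h2 _ hp
  by_contra hne
  exact hk _ _ hne (congrFun h3 ⟨k h.choose.1 p.1, hn _ h2 _ hp⟩)

/-- an injection of the countable set into the primes -/
noncomputable def ee (d : DD) : ℕ :=
  letI := Encodable.ofCountable DD
  Nat.nth Nat.Prime (Encodable.encode d)

theorem ee_inj : Function.Injective ee := by
  intro a b h
  letI := Encodable.ofCountable DD
  have h1 := Nat.nth_injective Nat.infinite_setOfPred_prime h
  exact Encodable.encode_injective h1

theorem ee_prime (d : DD) : (ee d).Prime := Nat.prime_nth_prime _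

/-- **Shelah.** For every regular uncountable cardinal at most the continuum there is an ultrafilter
on the primes with this lower cofinality. -/
theorem exists_low_prime (κ : Cardinal.{0}) (hκ : κ.IsRegular) (h0 : ℵ₀ < κ) (hc : κ ≤ 𝔠) :
    ∃ (U : Ultrafilter ℕ) (g : κ.ord.ToType → ℕ → ℕ), {p : ℕ | p.Prime} ∈ U ∧
      (∀ i (m : ℕ), {n | m ≤ g i n} ∈ U) ∧
      ∀ f : ℕ → ℕ, (∀ m : ℕ, {n | m ≤ f n} ∈ U) → ∃ b, ∀ j ≥ b, {n | g j n ≤ f n} ∈ U := by
  classical
  have hcard : #(κ.ord.ToType) ≤ #(ℕ → Bool) := by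
    rw [Cardinal.mk_toType, Cardinal.card_ord]
    simpa using hc
  obtain ⟨r⟩ := hcard
  haveI : Nonempty κ.ord.ToType := by
    rw [← Cardinal.mk_ne_zero_iff, Cardinal.mk_toType, Cardinal.card_ord]
    exact (lt_trans aleph0_pos h0).ne'
  obtain ⟨V, hV1, hV2⟩ := exists_low (gg r) (bx_nonempty r r.injective) (by
    intro s hs
    have h1 : ¬ IsCofinal s := by
      intro h
      have h2 := Order.cof_le h
      rw [Ordinal.cof_toType, hκ.cof_ord] at h2
      exact absurd (lt_of_lt_of_le h0 h2) (not_lt.2 hs.le_aleph0)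
    exact not_isCofinal_iff.1 h1)
  refine ⟨V.map ee, fun i => Function.extend ee (gg r i) 0, ?_, ?_, ?_⟩
  · rw [Ultrafilter.mem_map]
    exact Filter.univ_mem' (fun d => ee_prime d)
  · intro i m
    rw [Ultrafilter.mem_map]
    filter_upwards [hV1 i m] with d hd
    show m ≤ Function.extend ee (gg r i) 0 (ee d)
    rw [ee_inj.extend_apply]
    exact hd
  · intro f hf
    obtain ⟨b, hb⟩ := hV2 (f ∘ ee) (fun m => by
      have := hf m
      rw [Ultrafilter.mem_map] at this
      exact this)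
    refine ⟨b, fun j hj => ?_⟩
    rw [Ultrafilter.mem_map]
    filter_upwards [hb j hj] with d hd
    show Function.extend ee (gg r j) 0 (ee d) ≤ f (ee d)
    rw [ee_inj.extend_apply]
    exact hd

end Pool.Agent.Q213.EP
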