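import Pool.Agent.Q213.EP.E
import Pool.Agent.Q213.EP.W

set_option autoImplicit false
set_option linter.style.haveILetI false

/-!
# The ordered sets of cuts of the ultrapowers
-/

namespace Pool.Agent.Q213.EP

open Set Filter Cardinal

/-- the cuts of the ultrapower of `(ℕ, ≤)` that contain `1`, as sets of functions -/
def CutSet (U : Ultrafilter ℕ) : Set (Set (ℕ → ℕ)) :=
  {C | (fun _ => 1) ∈ C ∧ ∀ f ∈ C, ∀ g, lu U g f → g ∈ C}

variable {U V : Ultrafilter ℕ}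

theorem lu_refl (f : ℕ → ℕ) : lu U f f := lu_of_le (fun _ => le_refl _)

/-- the image of a cut under an isomorphism of ultrapowers -/
def img (G : Set ((ℕ → ℕ) × (ℕ → ℕ))) (C : Set (ℕ → ℕ)) : Set (ℕ → ℕ) :=
  {t | ∃ s ∈ C, (s, t) ∈ G}

theorem Good.img_mem {G : Set ((ℕ → ℕ) × (ℕ → ℕ))} (h : Good U V G)
    (h0 : ((fun _ => 0, fun _ => 0) : (ℕ → ℕ) × (ℕ → ℕ)) ∈ G) (h2 : ∀ s, ∃ t, (t, s) ∈ G)
    {C : Set (ℕ → ℕ)} (hC : C ∈ CutSet U) : img G C ∈ CutSet V := by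
  constructor
  · obtain ⟨s, hs⟩ := h2 (fun _ => 1)
    refine ⟨s, hC.2 _ hC.1 s ?_, hs⟩
    have h3 := (h.two hs h0 0 1).2 (lu_of_le (fun n => by simp [sh]))
    exact lu_trans (lu_trans (lu_of_le (fun n => le_refl _)) h3) (lu_of_le (fun n => by simp [sh]))
  · rintro t ⟨s, hs, hst⟩ t' ht'
    obtain ⟨s', hs'⟩ := h2 t'
    exact ⟨s', hC.2 _ hs _ ((h _ hs' _ hst 0).2 ht'), hs'⟩

theorem img_swap {G : Set ((ℕ → ℕ) × (ℕ → ℕ))} (h : Good U V G) (h1 : ∀ s, ∃ t, (s, t) ∈ G)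
    {C : Set (ℕ → ℕ)} (hC : C ∈ CutSet U) : img (Prod.swap '' G) (img G C) = C := by
  ext s
  constructor
  · rintro ⟨t, ⟨s', hs', hst⟩, ⟨p, hp, hpe⟩⟩
    have hp1 : p = (s, t) := by
      have h3 := congrArg Prod.swap hpe
      simpa using h3
    subst hp1
    exact hC.2 _ hs' _ ((h _ hp _ hst 0).2 (lu_refl t))
  · intro hs
    obtain ⟨t, ht⟩ := h1 s
    exact ⟨t, ⟨s, hs, ht⟩, ⟨(s, t), ht, rfl⟩⟩

theorem swap_swap_image (G : Set ((ℕ → ℕ) × (ℕ → ℕ))) : Prod.swap '' (Prod.swap '' G) = G := by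
  rw [← image_comp]
  simp

/-- under the continuum hypothesis the ordered sets of cuts are isomorphic -/
theorem cutIso_of_CH (hCH : (𝔠 : Cardinal.{0}) = ℵ₁) (hU : ∀ m : ℕ, {n | m ≤ n} ∈ U)
    (hV : ∀ m : ℕ, {n | m ≤ n} ∈ V) : Nonempty (CutSet U ≃o CutSet V) := by
  obtain ⟨G, h, h0, h1, h2⟩ := iso_of_CH hCH hU hV
  have h0' : ((fun _ => 0, fun _ => 0) : (ℕ → ℕ) × (ℕ → ℕ)) ∈ Prod.swap '' G := ⟨_, h0, rfl⟩
  have h1' : ∀ s, ∃ t, (s, t) ∈ Prod.swap '' G := fun s => by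
    obtain ⟨t, ht⟩ := h2 s
    exact ⟨t, ⟨_, ht, rfl⟩⟩
  have h2' : ∀ s, ∃ t, (t, s) ∈ Prod.swap '' G := fun s => by
    obtain ⟨t, ht⟩ := h1 s
    exact ⟨t, ⟨_, ht, rfl⟩⟩
  have hmono : ∀ (H : Set ((ℕ → ℕ) × (ℕ → ℕ))) (C D : Set (ℕ → ℕ)), C ⊆ D →
      img H C ⊆ img H D := fun H C D hCD t ⟨s, hs, hst⟩ => ⟨s, hCD hs, hst⟩
  refine ⟨⟨⟨fun C => ⟨img G C.1, h.img_mem h0 h2 C.2⟩,
    fun C => ⟨img (Prod.swap '' G) C.1, h.swap.img_mem h0' h2' C.2⟩, ?_, ?_⟩, ?_⟩⟩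
  · intro C
    exact Subtype.ext (img_swap h h1 C.2)
  · intro C
    apply Subtype.ext
    have := img_swap h.swap h1' C.2
    rw [swap_swap_image] at this
    exact this
  · intro C D
    constructor
    · intro hCD
      have hCD' : img G C.1 ⊆ img G D.1 := hCD
      have h3 := hmono (Prod.swap '' G) _ _ hCD'
      rw [img_swap h h1 C.2, img_swap h h1 D.2] at h3
      exact h3
    · intro hCD
      exact hmono G _ _ hCD

/-- the cut below a function -/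
def below (U : Ultrafilter ℕ) (g : ℕ → ℕ) : Set (ℕ → ℕ) := {f | lu U f g}

theorem below_mem {g : ℕ → ℕ} (h : lu U (fun _ => 1) g) : below U g ∈ CutSet U :=
  ⟨h, fun _ hf _ hg => lu_trans hg hf⟩

/-- the finite cuts -/
def fin (U : Ultrafilter ℕ) (m : ℕ) : CutSet U :=
  ⟨below U (fun _ => m + 1), below_mem (lu_of_le (fun _ => by omega))⟩

theorem fin_zero_le (C : CutSet U) : fin U 0 ≤ C := by
  intro f hf
  exact C.2.2 _ C.2.1 _ hf

theorem fin_lt (m : ℕ) : fin U m < fin U (m + 1) := by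
  refine lt_of_le_of_ne ?_ ?_
  · intro f hf
    exact lu_trans (show lu U f _ from hf) (lu_of_le (fun _ => by omega))
  · intro h
    have h1 : (fun _ => m + 1 + 1) ∈ (fin U (m + 1)).1 := lu_refl _
    rw [← h] at h1
    obtain ⟨n, hn⟩ := Ultrafilter.nonempty_of_mem h1
    have : m + 1 + 1 ≤ m + 1 := hn
    omega

theorem fin_succ_le {m : ℕ} {C : CutSet U} (h : fin U m < C) : fin U (m + 1) ≤ C := by
  obtain ⟨f, hf, hf2⟩ := Set.exists_of_ssubset (show (fin U m).1 ⊂ C.1 from h)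
  have h1 : lu U (fun _ => m + 1 + 1) f := not_lu.1 hf2
  intro f' hf'
  exact C.2.2 _ hf _ (lu_trans (show lu U f' _ from hf') h1)

theorem map_fin (φ : CutSet U ≃o CutSet V) (m : ℕ) : φ (fin U m) = fin V m := by
  induction m with
  | zero =>
    apply le_antisymm
    · have := φ.monotone (fin_zero_le (φ.symm (fin V 0)))
      rwa [φ.apply_symm_apply] at this
    · exact fin_zero_le _
  | succ m ih =>
    apply le_antisymm
    · have h1 : fin U m < φ.symm (fin V (m + 1)) := by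
        rw [← φ.lt_iff_lt, φ.apply_symm_apply, ih]
        exact fin_lt m
      have := φ.monotone (fin_succ_le h1)
      rwa [φ.apply_symm_apply] at this
    · apply fin_succ_le
      rw [← ih]
      exact φ.strictMono (fin_lt m)

/-- the cut contains an infinite element -/
def Big (C : CutSet U) : Prop := (∀ m, fin U m ≤ C) ∧ ∃ D : CutSet U, D < C ∧ ∀ m, fin U m ≤ D

theorem big_iff {C : CutSet U} : Big C ↔ ∃ f ∈ C.1, ∀ m : ℕ, lu U (fun _ => m) f := by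
  constructor
  · rintro ⟨-, D, hD, hm⟩
    obtain ⟨f, hf, hf2⟩ := Set.exists_of_ssubset (show D.1 ⊂ C.1 from hD)
    refine ⟨f, hf, fun m => ?_⟩
    by_contra h
    apply hf2
    rcases lu_total (U := U) (fun _ => m) f with h1 | h1
    · exact absurd h1 h
    · exact hm m (lu_trans h1 (lu_of_le (fun _ => by omega)))
  · rintro ⟨f, hf, hm⟩
    refine ⟨fun m g hg => C.2.2 _ hf _ (lu_trans (show lu U g _ from hg) (hm _)), ?_⟩
    let D : Set (ℕ → ℕ) := {g | ∃ m : ℕ, lu U g (fun _ => m)}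
    have hD : D ∈ CutSet U := ⟨⟨1, lu_refl _⟩, fun g ⟨m, hg⟩ g' hg' => ⟨m, lu_trans hg' hg⟩⟩
    refine ⟨⟨D, hD⟩, lt_of_le_of_ne ?_ ?_, ?_⟩
    · rintro g ⟨m, hg⟩
      exact C.2.2 _ hf _ (lu_trans hg (hm m))
    · intro h
      have h1 : f ∈ D := by
        have : f ∈ C.1 := hf
        rw [← h] at this
        exact this
      obtain ⟨m, h2⟩ := h1
      obtain ⟨n, hn⟩ := Ultrafilter.nonempty_of_mem (Filter.inter_mem h2 (hm (m + 1)))
      have h3 : f n ≤ m := hn.1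
      have h4 : m + 1 ≤ f n := hn.2
      omega
    · intro m g hg
      exact ⟨m + 1, hg⟩

theorem big_map (φ : CutSet U ≃o CutSet V) {C : CutSet U} (h : Big C) : Big (φ C) := by
  obtain ⟨h1, D, hD, h2⟩ := h
  refine ⟨fun m => ?_, φ D, φ.strictMono hD, fun m => ?_⟩
  · rw [← map_fin φ m]
    exact φ.monotone (h1 m)
  · rw [← map_fin φ m]
    exact φ.monotone (h2 m)

/-- ultrafilters with different lower cofinalities have non-isomorphic ordered sets of cuts -/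
theorem not_iso {κ μ : Cardinal.{0}} (hμ : μ.IsRegular) (hκμ : κ < μ)
    (g : κ.ord.ToType → ℕ → ℕ) (g1 : ∀ i (m : ℕ), {n | m ≤ g i n} ∈ U)
    (g2 : ∀ f : ℕ → ℕ, (∀ m : ℕ, {n | m ≤ f n} ∈ U) → ∃ b, ∀ j ≥ b, {n | g j n ≤ f n} ∈ U)
    (h : μ.ord.ToType → ℕ → ℕ) (h1 : ∀ i (m : ℕ), {n | m ≤ h i n} ∈ V)
    (h2 : ∀ f : ℕ → ℕ, (∀ m : ℕ, {n | m ≤ f n} ∈ V) → ∃ b, ∀ j ≥ b, {n | h j n ≤ f n} ∈ V) :
    ¬ Nonempty (CutSet U ≃o CutSet V) := by
  rintro ⟨φ⟩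
  let t : κ.ord.ToType → CutSet U := fun i => ⟨below U (g i), below_mem (g1 i 1)⟩
  have ht : ∀ i, Big (t i) := fun i => big_iff.2 ⟨g i, lu_refl _, fun m => g1 i m⟩
  have hf : ∀ i, ∃ f ∈ (φ (t i)).1, ∀ m : ℕ, lu V (fun _ => m) f := fun i =>
    big_iff.1 (big_map φ (ht i))
  choose f hf1 hf2 using hf
  choose b hb using fun i => h2 (f i) (hf2 i)
  have hcof : ¬ IsCofinal (range b) := by
    intro hc
    have h3 := Order.cof_le hc
    rw [Ordinal.cof_toType, hμ.cof_ord] at h3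
    have h4 : #(range b) ≤ κ := by
      refine le_trans mk_range_le ?_
      rw [Cardinal.mk_toType, Cardinal.card_ord]
    exact absurd (lt_of_le_of_lt (h3.trans h4) hκμ) (lt_irrefl _)
  obtain ⟨c, hc⟩ := not_isCofinal_iff.1 hcof
  have hle : ∀ i, lu V (h c) (f i) := fun i => hb i c (hc _ ⟨i, rfl⟩).le
  let s : ℕ → ℕ := fun n => h c n - 1
  have hs : ∀ m : ℕ, lu V (fun _ => m) s := by
    intro m
    filter_upwards [h1 c (m + 1)] with n hn
    show m ≤ h c n - 1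
    have : m + 1 ≤ h c n := hn
    omega
  let S : CutSet V := ⟨below V s, below_mem (hs 1)⟩
  have hS : Big S := big_iff.2 ⟨s, lu_refl _, hs⟩
  obtain ⟨w, hw1, hw2⟩ := big_iff.1 (big_map φ.symm hS)
  obtain ⟨i, hi⟩ := g2 w hw2
  have h5 : t i ≤ φ.symm S := by
    intro x hx
    exact (φ.symm S).2.2 _ hw1 _ (lu_trans (show lu U x (g i) from hx) (hi i le_rfl))
  have h6 : φ (t i) ≤ S := by
    have := φ.monotone h5
    rwa [φ.apply_symm_apply] at this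
  have h7 : h c ∈ S.1 := h6 ((φ (t i)).2.2 _ (hf1 i) _ (hle i))
  obtain ⟨n, hn⟩ := Ultrafilter.nonempty_of_mem (Filter.inter_mem h7 (h1 c 1))
  have h8 : h c n ≤ h c n - 1 := hn.1
  have h9 : 1 ≤ h c n := hn.2
  omega

end Pool.Agent.Q213.EP
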