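import Pool.Agent.Q204.NS.Transfer
import Pool.Agent.Q213.EP.O

set_option autoImplicit false

/-!
# Powers of nonstandard primes and cuts of ultrapowers
-/

namespace Pool.Agent.Q213.EP

open FirstOrder FirstOrder.Language Cardinal Q204.NS

variable {M : Type} [fullLang.Structure M]

/-- `A` is a set of positive integers closed under taking positive multiples. -/
def IsUp (A : Set ℕ) : Prop :=
  (∀ n ∈ A, 0 < n) ∧ ∀ n ∈ A, ∀ m, 0 < m → n ∣ m → m ∈ A

/-- `x` and `y` lie in the star-images of the same upward closed sets. -/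
def SimU (x y : M) : Prop := ∀ A : Set ℕ, IsUp A → (x ∈ star M A ↔ y ∈ star M A)

/-- The star-image of exponentiation. -/
def pow (x y : M) : M := starOp (fun m n => m ^ n) x y

/-- The ultrafilter contains the set of primes and is not principal. -/
def OnPrimes (P : Ultrafilter ℕ) : Prop := {n : ℕ | n.Prime} ∈ P ∧ ∀ n : ℕ, P ≠ pure n

/-- `D` is the section of the star-image of a binary relation at an element of `M`. -/
def IsSection (D : Set M) : Prop := ∃ (R : ℕ → ℕ → Prop) (a : M), D = {x | starRel R a x}

/-- Every family of at most continuum many sections with the finite intersection property has a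
nonempty intersection. -/
def Saturated (M : Type) [fullLang.Structure M] : Prop :=
  ∀ S : Set (Set M), #S ≤ 𝔠 → (∀ D ∈ S, IsSection D) →
    (∀ t : Set (Set M), t ⊆ S → t.Finite → (⋂₀ t).Nonempty) → (⋂₀ S).Nonempty

/-- The pairs `(p, x)` with `p` in the monad of `P` and `x` a positive element. -/
def Pairs (M : Type) [fullLang.Structure M] (P : Ultrafilter ℕ) : Type :=
  {q : M × M // q.1 ∈ monad M P ∧ q.2 ∈ star M {n | 0 < n}}

/-- The equivalence relation on the pairs. -/
def pairSetoid (M : Type) [fullLang.Structure M] (P : Ultrafilter ℕ) : Setoid (Pairs M P) where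
  r q r := SimU (pow q.1.1 q.1.2) (pow r.1.1 r.1.2)
  iseqv := ⟨fun _ _ _ => Iff.rfl, fun h A hA => (h A hA).symm,
    fun h h' A hA => (h A hA).trans (h' A hA)⟩

/-- The set of classes. -/
def E (M : Type) [fullLang.Structure M] (P : Ultrafilter ℕ) : Type := Quotient (pairSetoid M P)

/-- The class of a pair. -/
def cl {P : Ultrafilter ℕ} (q : Pairs M P) : E M P := Quotient.mk (pairSetoid M P) q

/-- The strict order on the classes. -/
def Prec {P : Ultrafilter ℕ} (u w : E M P) : Prop :=
  u ≠ w ∧ ∃ q r : Pairs M P, q.1.1 = r.1.1 ∧ starRel (fun m n => m < n) q.1.2 r.1.2 ∧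
    cl q = u ∧ cl r = w

/-- The order on the classes. -/
def Preceq {P : Ultrafilter ℕ} (u w : E M P) : Prop := Prec u w ∨ u = w

/-- The ordered sets of the classes for `P` and for `Q` are isomorphic. -/
def Iso (M : Type) [fullLang.Structure M] (P Q : Ultrafilter ℕ) : Prop :=
  ∃ e : E M P ≃ E M Q, ∀ u w, Preceq (e u) (e w) ↔ Preceq u w

/-! ## Transfer -/

theorem star_empty (hM : IsExtension M) : star M ∅ = ∅ := by
  have h1 := star_inter (M := M) hM ∅ (∅ᶜ)
  rw [star_compl hM, Set.empty_inter, Set.inter_compl_self] at h1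
  exact h1

theorem star_univ (hM : IsExtension M) : star M Set.univ = Set.univ := by
  have h1 := star_compl (M := M) hM ∅
  rw [star_empty hM, Set.compl_empty, Set.compl_empty] at h1
  exact h1

theorem mem_star_of_all (hM : IsExtension M) {A : Set ℕ} (h : ∀ n, n ∈ A) (w : M) :
    w ∈ star M A := by
  have : A = Set.univ := Set.eq_univ_of_forall h
  rw [this, star_univ hM]
  trivial

theorem starFn_comp (hM : IsExtension M) (f g : ℕ → ℕ) (w : M) :
    starFn f (starFn g w) = starFn (fun n => f (g n)) w := by
  let φ : fullLang.Sentence := BoundedFormula.all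
    (Term.bdEqual (Term.func (show fullLang.Functions 1 from (fun v => f (v 0)))
        (fun _ => tm g)) (tm (fun n => f (g n))))
  have h1 : ℕ ⊨ φ := by
    intro n
    rw [BoundedFormula.realize_bdEqual]
    rfl
  have h2 := (hM φ).1 h1 w
  rw [BoundedFormula.realize_bdEqual, realize_tm] at h2
  simp only [Term.realize] at h2
  rw [← h2]
  unfold starFn
  congr 1
  ext j
  fin_cases j
  exact (realize_tm g w).symm

theorem pair_tr (hM : IsExtension M) (f : ℕ → ℕ) (i : Fin 2)
    (hf : ∀ x : Fin 2 → ℕ, f (Nat.pair (x 0) (x 1)) = x i) (x : Fin 2 → M) :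
    starFn f (starOp Nat.pair (x 0) (x 1)) = x i := by
  let φ : fullLang.Sentence := BoundedFormula.all (BoundedFormula.all
    (Term.bdEqual (Term.func (show fullLang.Functions 1 from (fun v => f (v 0)))
        (fun _ => Term.func (show fullLang.Functions 2 from (fun v => Nat.pair (v 0) (v 1)))
          ![(&0 : fullLang.Term (Empty ⊕ Fin 2)), &1]))
        (Term.var (Sum.inr i) : fullLang.Term (Empty ⊕ Fin 2))))
  have h1 : ℕ ⊨ φ := by
    intro m n
    rw [BoundedFormula.realize_bdEqual]
    have h3 := hf (Fin.snoc (Fin.snoc default m) n)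
    exact h3
  have h2 := (hM φ).1 h1 (x 0) (x 1)
  rw [BoundedFormula.realize_bdEqual] at h2
  simp only [Term.realize] at h2
  have e1 : (Fin.snoc (Fin.snoc default (x 0)) (x 1) : Fin 2 → M) = x := by
    ext j
    fin_cases j <;> rfl
  rw [e1] at h2
  rw [← show (Sum.elim (default : Empty → M) x) (Sum.inr i) = x i from rfl, ← h2]
  unfold starFn starOp
  congr 1
  ext j
  fin_cases j
  show Structure.funMap _ _ = Structure.funMap _ _
  congr 1
  ext k
  fin_cases k <;> rfl

theorem exists_code (hM : IsExtension M) (x y : M) :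
    ∃ w : M, starFn (fun n => n.unpair.1) w = x ∧ starFn (fun n => n.unpair.2) w = y := by
  refine ⟨starOp Nat.pair x y, ?_, ?_⟩
  · exact pair_tr hM (fun n => n.unpair.1) 0 (fun x => by simp) ![x, y]
  · exact pair_tr hM (fun n => n.unpair.2) 1 (fun x => by simp) ![x, y]

theorem starRel_left (hM : IsExtension M) (R : ℕ → ℕ → Prop) (f : ℕ → ℕ) (w : M) :
    starRel R w (starFn f w) ↔ w ∈ star M {n | R n (f n)} := by
  have h := starRel_fn hM R (fun n => n) f w
  rwa [starFn_id hM] at h

end Pool.Agent.Q213.EP
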