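import Pool.Agent.Q213.EP.N

set_option autoImplicit false

/-!
# The classes and the cuts
-/

namespace Pool.Agent.Q213.EP

open FirstOrder FirstOrder.Language Cardinal Q204.NS

variable {M : Type} [fullLang.Structure M]

/-- The functions whose value at `p` is at most `x`. -/
def cut (p x : M) : Set (ℕ → ℕ) := {f | starRel (fun m n => f m ≤ n) p x}

theorem mem_cut {p x : M} {f : ℕ → ℕ} :
    f ∈ cut p x ↔ starRel (fun m n => f m ≤ n) p x := Iff.rfl

theorem mem_sec {R : ℕ → ℕ → Prop} {a x : M} :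
    x ∈ ({x | starRel R a x} : Set M) ↔ starRel R a x := Iff.rfl

/-- The first coordinate of a code. -/
def c1 (n : ℕ) : ℕ := n.unpair.1

/-- The second coordinate of a code. -/
def c2 (n : ℕ) : ℕ := n.unpair.2

theorem code (hM : IsExtension M) (x y : M) : ∃ w : M, starFn c1 w = x ∧ starFn c2 w = y :=
  exists_code hM x y

theorem mem_cut_iff (hM : IsExtension M) (w : M) (f : ℕ → ℕ) :
    f ∈ cut (starFn c1 w) (starFn c2 w) ↔ w ∈ star M {n | f (c1 n) ≤ c2 n} :=
  starRel_fn hM (fun m n => f m ≤ n) c1 c2 w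

theorem pow_mem_iff (hM : IsExtension M) (w : M) (A : Set ℕ) :
    pow (starFn c1 w) (starFn c2 w) ∈ star M A ↔ w ∈ star M {n | (c1 n) ^ (c2 n) ∈ A} := by
  unfold pow
  rw [starOp_fn hM, mem_star_fn hM]
  rfl

/-- The least positive exponent that puts a power of `m` into `A`. -/
noncomputable def fA (A : Set ℕ) (m : ℕ) : ℕ := sInf {k | 0 < k ∧ m ^ k ∈ A}

/-- The numbers with a positive power in `A`. -/
def tA (A : Set ℕ) : Set ℕ := {m | ∃ k, 0 < k ∧ m ^ k ∈ A}

theorem pow_mem_up {A : Set ℕ} (hA : IsUp A) {m k : ℕ} (hm : 0 < m) (hk : 0 < k) :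
    m ^ k ∈ A ↔ m ∈ tA A ∧ fA A m ≤ k := by
  constructor
  · intro h
    exact ⟨⟨k, hk, h⟩, Nat.sInf_le ⟨hk, h⟩⟩
  · rintro ⟨⟨j, hj, hjA⟩, hk2⟩
    have h1 : 0 < fA A m ∧ m ^ fA A m ∈ A := Nat.sInf_mem (⟨j, hj, hjA⟩ : {k | 0 < k ∧ m ^ k ∈ A}.Nonempty)
    exact hA.2 _ h1.2 _ (pow_pos hm k) (pow_dvd_pow m hk2)

/-- The upward closed set belonging to a function. -/
def aF (f : ℕ → ℕ) : Set ℕ := {k | 0 < k ∧ ∃ q : ℕ, q.Prime ∧ q ^ (max (f q) 1) ∣ k}

theorem aF_up (f : ℕ → ℕ) : IsUp (aF f) := by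
  refine ⟨fun n hn => hn.1, ?_⟩
  rintro n ⟨-, q, hq, hd⟩ m hm hnm
  exact ⟨hm, q, hq, hd.trans hnm⟩

theorem pow_mem_aF (f : ℕ → ℕ) {m k : ℕ} (hm : m.Prime) (hk : 0 < k) :
    m ^ k ∈ aF f ↔ f m ≤ k := by
  constructor
  · rintro ⟨-, q, hq, hd⟩
    have h1 : q ∣ m ^ k := dvd_trans (dvd_pow_self q (by omega)) hd
    have h2 : q = m := (Nat.prime_dvd_prime_iff_eq hq hm).1 (hq.dvd_of_dvd_pow h1)
    subst h2
    have h3 := (Nat.pow_dvd_pow_iff_le_right hq.one_lt).1 hd
    omega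
  · intro h
    exact ⟨pow_pos hm.pos k, m, hm, pow_dvd_pow m (by omega)⟩

theorem star_and (hM : IsExtension M) {A B : Set ℕ} {w : M} (hA : w ∈ star M A)
    (hB : w ∈ star M B) : w ∈ star M (A ∩ B) := by
  rw [star_inter hM]
  exact ⟨hA, hB⟩

theorem star_congr (hM : IsExtension M) {A B C : Set ℕ} {w : M} (hC : w ∈ star M C)
    (h : ∀ n ∈ C, n ∈ A ↔ n ∈ B) : w ∈ star M A ↔ w ∈ star M B := by
  constructor
  · intro hA
    exact star_mono hM (fun n hn => (h n hn.2).1 hn.1) (star_and hM hA hC)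
  · intro hA
    exact star_mono hM (fun n hn => (h n hn.2).2 hn.1) (star_and hM hA hC)

variable {P Q : Ultrafilter ℕ}

theorem pow_up (hM : IsExtension M) (hP : {n : ℕ | n.Prime} ∈ P) {p x : M} (hp : p ∈ monad M P)
    (hx : x ∈ star M {n | 0 < n}) {A : Set ℕ} (hA : IsUp A) :
    pow p x ∈ star M A ↔ tA A ∈ P ∧ fA A ∈ cut p x := by
  obtain ⟨w, rfl, rfl⟩ := code hM p x
  have h1 : w ∈ star M ({n | (c1 n).Prime} ∩ {n | 0 < c2 n}) := by
    apply star_and hM
    · exact (mem_star_fn hM _ _ _).1 (hp _ hP)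
    · exact (mem_star_fn hM _ _ _).1 hx
  have h2 : tA A ∈ P ↔ w ∈ star M {n | c1 n ∈ tA A} := by
    rw [← mem_star_iff hM hp, mem_star_fn hM]
    rfl
  rw [pow_mem_iff hM, h2, mem_cut_iff hM]
  rw [star_congr hM h1 (B := {n | c1 n ∈ tA A} ∩ {n | fA A (c1 n) ≤ c2 n}), star_inter hM]
  · rfl
  · rintro n ⟨hn1, hn2⟩
    exact pow_mem_up hA (Nat.Prime.pos hn1) hn2

theorem pow_aF (hM : IsExtension M) (hP : {n : ℕ | n.Prime} ∈ P) {p x : M} (hp : p ∈ monad M P)
    (hx : x ∈ star M {n | 0 < n}) (f : ℕ → ℕ) :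
    pow p x ∈ star M (aF f) ↔ f ∈ cut p x := by
  obtain ⟨w, rfl, rfl⟩ := code hM p x
  have h1 : w ∈ star M ({n | (c1 n).Prime} ∩ {n | 0 < c2 n}) := by
    apply star_and hM
    · exact (mem_star_fn hM _ _ _).1 (hp _ hP)
    · exact (mem_star_fn hM _ _ _).1 hx
  rw [pow_mem_iff hM, mem_cut_iff hM]
  apply star_congr hM h1
  rintro n ⟨hn1, hn2⟩
  exact pow_mem_aF f hn1 hn2

theorem simU_iff (hM : IsExtension M) (hP : {n : ℕ | n.Prime} ∈ P) {p x q y : M}
    (hp : p ∈ monad M P) (hx : x ∈ star M {n | 0 < n}) (hq : q ∈ monad M P)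
    (hy : y ∈ star M {n | 0 < n}) : SimU (pow p x) (pow q y) ↔ cut p x = cut q y := by
  constructor
  · intro h
    ext f
    rw [← pow_aF hM hP hp hx, ← pow_aF hM hP hq hy]
    exact h _ (aF_up f)
  · intro h A hA
    rw [pow_up hM hP hp hx hA, pow_up hM hP hq hy hA, h]

theorem cut_mem (hM : IsExtension M) {p x : M} (hp : p ∈ monad M P)
    (hx : x ∈ star M {n | 0 < n}) : cut p x ∈ CutSet P := by
  obtain ⟨w, rfl, rfl⟩ := code hM p x
  constructor
  · rw [mem_cut_iff hM]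
    exact (mem_star_fn hM _ _ _).1 hx
  · intro f hf g hg
    rw [mem_cut_iff hM] at hf ⊢
    have h1 := (mem_star_fn hM _ _ _).1 (hp _ hg)
    exact star_mono hM (fun n hn => le_trans (show g (c1 n) ≤ f (c1 n) from hn.2) hn.1)
      (star_and hM hf h1)

theorem cut_mono (hM : IsExtension M) {p x y : M} (h : starRel (fun m n => m < n) x y) :
    cut p x ⊆ cut p y := by
  intro f hf
  obtain ⟨v, rfl, rfl⟩ := code hM x y
  obtain ⟨w, rfl, hw⟩ := code hM p v
  subst hw
  rw [starFn_comp hM] at hf h ⊢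
  rw [starFn_comp hM] at h
  rw [mem_cut] at hf ⊢
  have h1 := (starRel_fn hM _ _ _ _).1 h
  have h2 := (starRel_fn hM _ _ _ _).1 hf
  refine (starRel_fn hM _ _ _ _).2 ?_
  exact star_mono hM (fun n hn => le_trans (show f (c1 n) ≤ c1 (c2 n) from hn.2)
    (show c1 (c2 n) < c2 (c2 n) from hn.1).le) (star_and hM h1 h2)

theorem lt_of_not_sub (hM : IsExtension M) {p x y : M} (h : ¬ cut p y ⊆ cut p x) :
    starRel (fun m n => m < n) x y := by
  obtain ⟨f, hf, hf2⟩ := Set.not_subset.1 h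
  obtain ⟨v, rfl, rfl⟩ := code hM x y
  obtain ⟨w, rfl, hw⟩ := code hM p v
  subst hw
  rw [starFn_comp hM] at hf hf2 ⊢
  rw [starFn_comp hM]
  rw [mem_cut] at hf hf2
  have h1 := (starRel_fn hM _ _ _ _).1 hf
  have h2 : w ∈ star M {n | f (c1 n) ≤ c1 (c2 n)}ᶜ := by
    rw [star_compl hM]
    exact fun hn => hf2 ((starRel_fn hM _ _ _ _).2 hn)
  refine (starRel_fn hM _ _ _ _).2 ?_
  refine star_mono hM (fun n hn => ?_) (star_and hM h1 h2)
  have h3 : f (c1 n) ≤ c2 (c2 n) := hn.1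
  have h4 : ¬ f (c1 n) ≤ c1 (c2 n) := hn.2
  show c1 (c2 n) < c2 (c2 n)
  omega

theorem exists_cut (hM : IsExtension M) (hS : Saturated M) {p : M} (hp : p ∈ monad M P)
    {C : Set (ℕ → ℕ)} (hC : C ∈ CutSet P) : ∃ x ∈ star M {n | 0 < n}, cut p x = C := by
  classical
  let D : (ℕ → ℕ) → Set M := fun f =>
    if f ∈ C then {x | starRel (fun m n => f m ≤ n) p x}
    else {x | starRel (fun m n => n < f m) p x}
  have hfin : ∀ s : Finset (ℕ → ℕ), ∃ u ∈ C, ∀ f ∈ s, f ∈ C → ∀ n, f n ≤ u n := by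
    intro s
    induction s using Finset.induction with
    | empty => exact ⟨_, hC.1, fun f hf => absurd hf (Finset.notMem_empty f)⟩
    | insert a s _ ih =>
      obtain ⟨u, hu, hu2⟩ := ih
      by_cases ha : a ∈ C
      · refine ⟨fun n => max (a n) (u n), ?_, ?_⟩
        · rcases lu_total (U := P) a u with h | h
          · refine hC.2 _ hu _ ?_
            filter_upwards [h] with n hn
            have : a n ≤ u n := hn
            show max (a n) (u n) ≤ u n
            omega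
          · refine hC.2 _ ha _ ?_
            filter_upwards [h] with n hn
            have : u n ≤ a n := hn
            show max (a n) (u n) ≤ a n
            omega
        · intro f hf hfC n
          rcases Finset.mem_insert.1 hf with rfl | hf
          · exact le_max_left _ _
          · exact le_trans (hu2 f hf hfC n) (le_max_right _ _)
      · refine ⟨u, hu, ?_⟩
        intro f hf hfC n
        rcases Finset.mem_insert.1 hf with rfl | hf
        · exact absurd hfC ha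
        · exact hu2 f hf hfC n
  have hmem : ∀ u ∈ C, ∀ f, (f ∈ C → ∀ n, f n ≤ u n) → starFn u p ∈ D f := by
    intro u hu f hf
    by_cases h : f ∈ C
    · simp only [D, if_pos h]
      exact (starRel_left hM _ _ _).2 (mem_star_of_all hM (fun n => hf h n) _)
    · simp only [D, if_neg h]
      rw [mem_sec]
      refine (starRel_left hM _ _ _).2 (hp _ ?_)
      by_contra h1
      apply h
      refine hC.2 _ hu _ ?_
      filter_upwards [Ultrafilter.compl_mem_iff_notMem.2 h1] with n hn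
      exact not_lt.1 hn
  have hcard : #(Set.range D) ≤ 𝔠 := by
    refine le_trans mk_range_le ?_
    simp
  obtain ⟨x, hx⟩ := hS (Set.range D) hcard (by
    rintro _ ⟨f, rfl⟩
    by_cases h : f ∈ C
    · exact ⟨_, p, by simp only [D, if_pos h]; rfl⟩
    · exact ⟨_, p, by simp only [D, if_neg h]; rfl⟩) (by
    intro t ht htf
    choose! φ hφ using fun d (hd : d ∈ t) => ht hd
    obtain ⟨u, hu, hu2⟩ := hfin (htf.toFinset.image φ)
    refine ⟨starFn u p, ?_⟩
    rintro d hd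
    rw [← hφ d hd]
    refine hmem u hu _ (fun hC' => hu2 _ ?_ hC')
    exact Finset.mem_image_of_mem φ (htf.mem_toFinset.2 hd))
  have hx2 : ∀ f, x ∈ D f := fun f => hx _ ⟨f, rfl⟩
  have hcx : cut p x = C := by
    ext f
    constructor
    · intro h
      by_contra h1
      have h2 := hx2 f
      simp only [D, if_neg h1] at h2
      obtain ⟨w, rfl, rfl⟩ := code hM p x
      rw [mem_sec] at h2
      rw [mem_cut] at h
      have h3 := (starRel_fn hM _ _ _ _).1 h
      have h4 := (starRel_fn hM _ _ _ _).1 h2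
      have h5 := star_mono hM (B := ∅) (fun n hn => by
        have h6 : f (c1 n) ≤ c2 n := hn.1
        have h7 : c2 n < f (c1 n) := hn.2
        omega) (star_and hM h3 h4)
      rw [star_empty hM] at h5
      exact h5
    · intro h
      have h2 := hx2 f
      simp only [D, if_pos h] at h2
      exact h2
  refine ⟨x, ?_, hcx⟩
  have h1 : (fun _ => 1) ∈ cut p x := by rw [hcx]; exact hC.1
  obtain ⟨w, rfl, rfl⟩ := code hM p x
  rw [mem_cut_iff hM] at h1
  exact (mem_star_fn hM _ _ _).2 h1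

theorem star_nonempty (hM : IsExtension M) [Nonempty M] {A : Set ℕ} (hA : A.Nonempty) :
    (star M A).Nonempty := by
  obtain ⟨a, ha⟩ := hA
  obtain ⟨w⟩ := ‹Nonempty M›
  exact ⟨starFn (fun _ => a) w, (mem_star_fn hM _ _ _).2 (mem_star_of_all hM (fun _ => ha) _)⟩

theorem nonempty_ext (hM : IsExtension M) : Nonempty M := by
  let φ : fullLang.Sentence := BoundedFormula.all BoundedFormula.falsum
  by_contra h
  rw [not_nonempty_iff] at h
  have h1 : M ⊨ φ := fun x => h.elim x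
  exact (hM φ).2 h1 0

theorem monad_nonempty (hM : IsExtension M) (hS : Saturated M) (P : Ultrafilter ℕ) :
    (monad M P).Nonempty := by
  have := nonempty_ext hM
  obtain ⟨a⟩ := nonempty_ext hM
  have hrel : ∀ A : Set ℕ, star M A = {x : M | starRel (fun _ n => n ∈ A) a x} := by
    intro A
    ext x
    obtain ⟨w, rfl, rfl⟩ := code hM a x
    exact (mem_star_fn hM _ _ _).trans (starRel_fn hM (fun _ n => n ∈ A) c1 c2 w).symm
  obtain ⟨x, hx⟩ := hS ((fun A => star M A) '' {A | A ∈ P}) (by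
      refine le_trans mk_image_le ?_
      refine le_trans (mk_set_le _) ?_
      simp) (by
      rintro _ ⟨A, -, rfl⟩
      exact ⟨fun _ n => n ∈ A, a, hrel A⟩) (by
      intro t ht htf
      choose! φ hφ using fun d (hd : d ∈ t) => ht hd
      have h1 : (⋂ d ∈ htf.toFinset, φ d) ∈ P := by
        refine (Filter.biInter_finset_mem _).2 ?_
        intro d hd
        exact (hφ d (htf.mem_toFinset.1 hd)).1
      obtain ⟨x, hx⟩ := star_nonempty hM (Ultrafilter.nonempty_of_mem h1)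
      refine ⟨x, fun d hd => ?_⟩
      rw [← (hφ d hd).2]
      refine star_mono hM ?_ hx
      intro n hn
      simp only [Set.mem_iInter] at hn
      exact hn d (htf.mem_toFinset.2 hd))
  exact ⟨x, fun A hA => hx _ ⟨A, hA, rfl⟩⟩

/-- The cut of a class. -/
def cutOf (hM : IsExtension M) (hP : {n : ℕ | n.Prime} ∈ P) (u : E M P) : CutSet P :=
  Quotient.lift (s := pairSetoid M P) (fun q => (⟨cut q.1.1 q.1.2, cut_mem hM q.2.1 q.2.2⟩ : CutSet P))
    (fun q r h => Subtype.ext ((simU_iff hM hP q.2.1 q.2.2 r.2.1 r.2.2).1 h)) u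

theorem cutOf_cl (hM : IsExtension M) (hP : {n : ℕ | n.Prime} ∈ P) (q : Pairs M P) :
    (cutOf hM hP (cl q)).1 = cut q.1.1 q.1.2 := rfl

theorem cutOf_injective (hM : IsExtension M) (hP : {n : ℕ | n.Prime} ∈ P) :
    Function.Injective (cutOf (M := M) hM hP) := by
  intro u w
  refine Quotient.inductionOn₂ (s₁ := pairSetoid M P) (s₂ := pairSetoid M P) u w ?_
  intro q r h
  have h1 : cut q.1.1 q.1.2 = cut r.1.1 r.1.2 := congrArg Subtype.val h
  exact Quotient.sound (s := pairSetoid M P) ((simU_iff hM hP q.2.1 q.2.2 r.2.1 r.2.2).2 h1)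

theorem cutOf_surjective (hM : IsExtension M) (hS : Saturated M)
    (hP : {n : ℕ | n.Prime} ∈ P) : Function.Surjective (cutOf (M := M) hM hP) := by
  intro C
  obtain ⟨p, hp⟩ := monad_nonempty hM hS P
  obtain ⟨x, hx, hxc⟩ := exists_cut hM hS hp C.2
  exact ⟨cl ⟨(p, x), hp, hx⟩, Subtype.ext hxc⟩

theorem preceq_iff (hM : IsExtension M) (hS : Saturated M) (hP : {n : ℕ | n.Prime} ∈ P)
    (u w : E M P) : Preceq u w ↔ cutOf hM hP u ≤ cutOf hM hP w := by
  constructor
  · rintro (⟨-, q, r, hqr, hlt, rfl, rfl⟩ | rfl)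
    · show cut q.1.1 q.1.2 ⊆ cut r.1.1 r.1.2
      rw [hqr]
      exact cut_mono hM hlt
    · exact le_rfl
  · intro h
    by_cases h1 : u = w
    · exact Or.inr h1
    · refine Or.inl ⟨h1, ?_⟩
      obtain ⟨p, hp⟩ := monad_nonempty hM hS P
      obtain ⟨x, hx, hxc⟩ := exists_cut hM hS hp (cutOf hM hP u).2
      obtain ⟨y, hy, hyc⟩ := exists_cut hM hS hp (cutOf hM hP w).2
      refine ⟨⟨(p, x), hp, hx⟩, ⟨(p, y), hp, hy⟩, rfl, ?_, ?_, ?_⟩
      · apply lt_of_not_sub hM (p := p)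
        intro h2
        rw [hxc, hyc] at h2
        apply h1
        exact cutOf_injective hM hP (le_antisymm h h2)
      · exact cutOf_injective hM hP (Subtype.ext hxc)
      · exact cutOf_injective hM hP (Subtype.ext hyc)

theorem iso_iff (hM : IsExtension M) (hS : Saturated M) (hP : {n : ℕ | n.Prime} ∈ P)
    (hQ : {n : ℕ | n.Prime} ∈ Q) : Iso M P Q ↔ Nonempty (CutSet P ≃o CutSet Q) := by
  let eP : E M P ≃ CutSet P := Equiv.ofBijective _
    ⟨cutOf_injective (M := M) hM hP, cutOf_surjective hM hS hP⟩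
  let eQ : E M Q ≃ CutSet Q := Equiv.ofBijective _
    ⟨cutOf_injective (M := M) hM hQ, cutOf_surjective hM hS hQ⟩
  have h1 : ∀ u w : E M P, eP u ≤ eP w ↔ Preceq u w := fun u w => (preceq_iff hM hS hP u w).symm
  have h2 : ∀ u w : E M Q, eQ u ≤ eQ w ↔ Preceq u w := fun u w => (preceq_iff hM hS hQ u w).symm
  constructor
  · rintro ⟨e, he⟩
    refine ⟨⟨(eP.symm.trans e).trans eQ, ?_⟩⟩
    intro a b
    show eQ (e (eP.symm a)) ≤ eQ (e (eP.symm b)) ↔ a ≤ b
    rw [h2, he, ← h1, eP.apply_symm_apply, eP.apply_symm_apply]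
  · rintro ⟨φ⟩
    refine ⟨(eP.trans φ.toEquiv).trans eQ.symm, ?_⟩
    intro u w
    rw [← h2, ← h1]
    show eQ (eQ.symm (φ (eP u))) ≤ eQ (eQ.symm (φ (eP w))) ↔ eP u ≤ eP w
    rw [eQ.apply_symm_apply, eQ.apply_symm_apply]
    exact φ.le_iff_le

theorem big_of_nonprincipal (hP : ∀ n : ℕ, P ≠ pure n) (m : ℕ) : {n | m ≤ n} ∈ P := by
  by_contra h
  have h1 : {n | n < m} ∈ P := by
    filter_upwards [Ultrafilter.compl_mem_iff_notMem.2 h] with n hn
    exact not_le.1 hn
  obtain ⟨n, -, hn⟩ := Ultrafilter.eq_pure_of_finite_mem (Set.finite_lt_nat m) h1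
  exact hP n (Ultrafilter.coe_injective (by simpa using congrArg (fun U : Ultrafilter ℕ => (U : Filter ℕ)) hn))

end Pool.Agent.Q213.EP
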