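import Mathlib

set_option autoImplicit false

/-!
# Maximal filters for an independent family of functions

`g i : D → ℕ` is an independent family of functions, `F` is a maximal filter for which the family
is still independent. Every subset of `D` is decided, modulo `F`, by a countable subfamily.
-/

namespace Pool.Agent.Q213.EP

open Set Filter

section cond

variable {I D : Type*}

/-- the set described by a condition -/
def Bx (g : I → D → ℕ) (c : Finset (I × ℕ)) : Set D := {d | ∀ p ∈ c, g p.1 d = p.2}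

/-- the condition is a partial function -/
def Fn (c : Finset (I × ℕ)) : Prop := ∀ p ∈ c, ∀ q ∈ c, p.1 = q.1 → p.2 = q.2

/-- the condition has its domain in `S` -/
def Ov (S : Set I) (c : Finset (I × ℕ)) : Prop := ∀ p ∈ c, p.1 ∈ S

/-- the condition decides the set `X` modulo `F` -/
def Dec (g : I → D → ℕ) (F : Filter D) (c : Finset (I × ℕ)) (X : Set D) : Prop :=
  (Bx g c)ᶜ ∪ X ∈ F ∨ (Bx g c)ᶜ ∪ Xᶜ ∈ F

/-- the set `X` is based on the functions with index in `S` -/
def Bas (g : I → D → ℕ) (F : Filter D) (S : Set I) (X : Set D) : Prop :=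
  ∀ c, Fn c → Ov S c → ∃ c', Fn c' ∧ c ⊆ c' ∧ Ov S c' ∧ Dec g F c' X

/-- `F` is a maximal filter for which the family is independent -/
structure Mx (g : I → D → ℕ) (F : Filter D) : Prop where
  pos : ∀ c, Fn c → (Bx g c)ᶜ ∉ F
  max : ∀ F' ≤ F, (∀ c, Fn c → (Bx g c)ᶜ ∉ F') → F ≤ F'

variable {g : I → D → ℕ} {F : Filter D}

theorem bx_anti {c c' : Finset (I × ℕ)} (h : c ⊆ c') : Bx g c' ⊆ Bx g c :=
  fun _ hd p hp => hd p (h hp)

theorem bx_union [DecidableEq I] (c c' : Finset (I × ℕ)) :
    Bx g (c ∪ c') = Bx g c ∩ Bx g c' := by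
  ext d
  constructor
  · intro h
    exact ⟨fun p hp => h p (Finset.mem_union_left _ hp), fun p hp => h p (Finset.mem_union_right _ hp)⟩
  · rintro ⟨h1, h2⟩ p hp
    rcases Finset.mem_union.1 hp with h | h
    · exact h1 p h
    · exact h2 p h

theorem fn_of_point {c : Finset (I × ℕ)} {d : D} (h : d ∈ Bx g c) : Fn c := by
  intro p hp q hq hpq
  rw [← h p hp, ← h q hq, hpq]

theorem exists_mx (h : ∀ c, Fn c → (Bx g c).Nonempty) : ∃ F, Mx g F := by
  classical
  let 𝓢 : Set (Filter D)ᵒᵈ := {F | ∀ c, Fn c → (Bx g c)ᶜ ∉ OrderDual.ofDual F}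
  have htop : OrderDual.toDual (⊤ : Filter D) ∈ 𝓢 := by
    intro c hc hn
    have h1 : (Bx g c)ᶜ ∈ (⊤ : Filter D) := hn
    rw [mem_top, compl_univ_iff] at h1
    exact (h c hc).ne_empty h1
  obtain ⟨m, -, hm⟩ := zorn_le_nonempty₀ 𝓢 (by
    intro C hC hch y hy
    refine ⟨OrderDual.toDual (sInf (OrderDual.toDual ⁻¹' C)), ?_, ?_⟩
    · intro c hc hn
      have hn' : (Bx g c)ᶜ ∈ ⨅ F ∈ (OrderDual.toDual ⁻¹' C : Set (Filter D)), F := by
        rw [← sInf_eq_iInf]
        exact hn
      rw [Filter.mem_biInf_of_directed] at hn'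
      · obtain ⟨F, hF, hF2⟩ := hn'
        exact hC hF c hc hF2
      · intro F1 hF1 F2 hF2
        rcases hch.total hF1 hF2 with h1 | h1
        · exact ⟨F2, hF2, h1, le_refl _⟩
        · exact ⟨F1, hF1, le_refl _, h1⟩
      · exact ⟨OrderDual.ofDual y, hy⟩
    · intro z hz
      show sInf (OrderDual.toDual ⁻¹' C) ≤ OrderDual.ofDual z
      exact sInf_le hz) _ htop
  refine ⟨OrderDual.ofDual m, hm.1, ?_⟩
  intro F' hF' h1
  exact hm.2 (y := OrderDual.toDual F') h1 hF'

theorem fn_union_of_ov [DecidableEq I] {S : Set I} {c c' : Finset (I × ℕ)} (hc : Fn c)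
    (hc' : Fn c') (hS : Ov S c') (h : ∀ p ∈ c, p.1 ∈ S → p ∈ c') : Fn (c ∪ c') := by
  intro p hp q hq hpq
  rcases Finset.mem_union.1 hp with h1 | h1 <;> rcases Finset.mem_union.1 hq with h2 | h2
  · exact hc p h1 q h2 hpq
  · exact hc' p (h p h1 (hpq ▸ hS q h2)) q h2 hpq
  · exact hc' p h1 q (h q h2 (hpq ▸ hS p h1)) hpq
  · exact hc' p h1 q h2 hpq

/-- every set is decided by a dense set of conditions -/
theorem Mx.dens (hF : Mx g F) (X : Set D) (c : Finset (I × ℕ)) (hc : Fn c) :
    ∃ c', Fn c' ∧ c ⊆ c' ∧ Dec g F c' X := by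
  classical
  by_contra hcon
  push Not at hcon
  have h1 : ∀ c', Fn c' → c ⊆ c' → (Bx g c')ᶜ ∪ X ∉ F := fun c' h1 h2 h3 =>
    hcon c' h1 h2 (Or.inl h3)
  have h2 := hF.max (F ⊓ 𝓟 ((Bx g c)ᶜ ∪ Xᶜ)) inf_le_left (by
    intro e he hn
    rw [mem_inf_principal] at hn
    by_cases hec : Fn (c ∪ e)
    · apply h1 _ hec Finset.subset_union_left
      filter_upwards [hn] with d hd
      by_cases hdX : d ∈ X
      · exact Or.inr hdX
      · left
        rw [bx_union]
        rintro ⟨h3, h4⟩
        exact hd (Or.inr hdX) h4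
    · apply hF.pos e he
      filter_upwards [hn] with d hd
      intro hde
      by_cases hdc : d ∈ Bx g c
      · apply hec
        apply fn_of_point (g := g) (d := d)
        rw [bx_union]
        exact ⟨hdc, hde⟩
      · exact hd (Or.inl hdc) hde)
  have h3 : (Bx g c)ᶜ ∪ Xᶜ ∈ F := h2 (mem_inf_of_right (mem_principal_self _))
  exact hcon c hc (Finset.Subset.refl _) (Or.inr h3)

theorem Dec.mono {c c' : Finset (I × ℕ)} {X : Set D} (h : Dec g F c X) (hc : c ⊆ c') :
    Dec g F c' X := by
  have h1 : (Bx g c)ᶜ ⊆ (Bx g c')ᶜ := compl_subset_compl.2 (bx_anti hc)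
  rcases h with h | h
  · exact Or.inl (mem_of_superset h (union_subset_union_left _ h1))
  · exact Or.inr (mem_of_superset h (union_subset_union_left _ h1))

theorem Bas.mono {S S' : Set I} {X : Set D} (h : Bas g F S X) (hS : S ⊆ S') : Bas g F S' X := by
  classical
  intro c hc hcS
  have h0 : Fn (c.filter (fun p => p.1 ∈ S)) := fun p hp q hq =>
    hc p (Finset.mem_filter.1 hp).1 q (Finset.mem_filter.1 hq).1
  obtain ⟨c', h1, h2, h3, h4⟩ := h _ h0 (fun p hp => (Finset.mem_filter.1 hp).2)
  refine ⟨c ∪ c', fn_union_of_ov hc h1 h3 (fun p hp hpS => h2 (Finset.mem_filter.2 ⟨hp, hpS⟩)),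
    Finset.subset_union_left, ?_, h4.mono Finset.subset_union_right⟩
  intro p hp
  rcases Finset.mem_union.1 hp with h5 | h5
  · exact hcS p h5
  · exact hS (h3 p h5)

theorem Dec.compl {c : Finset (I × ℕ)} {X : Set D} (h : Dec g F c X) : Dec g F c Xᶜ := by
  rcases h with h | h
  · right; rwa [compl_compl]
  · left; exact h

theorem Bas.compl {S : Set I} {X : Set D} (h : Bas g F S X) : Bas g F S Xᶜ := by
  intro c hc hcS
  obtain ⟨c', h1, h2, h3, h4⟩ := h c hc hcS
  exact ⟨c', h1, h2, h3, h4.compl⟩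

theorem Dec.inter {c : Finset (I × ℕ)} {X Y : Set D} (h : Dec g F c X) (h' : Dec g F c Y) :
    Dec g F c (X ∩ Y) := by
  rcases h with h | h
  · rcases h' with h' | h'
    · left
      filter_upwards [h, h'] with d h1 h2
      rcases h1 with h1 | h1
      · exact Or.inl h1
      · rcases h2 with h2 | h2
        · exact Or.inl h2
        · exact Or.inr ⟨h1, h2⟩
    · right
      filter_upwards [h'] with d h1
      rcases h1 with h1 | h1
      · exact Or.inl h1
      · exact Or.inr (fun h2 => h1 h2.2)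
  · right
    filter_upwards [h] with d h1
    rcases h1 with h1 | h1
    · exact Or.inl h1
    · exact Or.inr (fun h2 => h1 h2.1)

theorem Bas.inter {S : Set I} {X Y : Set D} (h : Bas g F S X) (h' : Bas g F S Y) :
    Bas g F S (X ∩ Y) := by
  intro c hc hcS
  obtain ⟨c', h1, h2, h3, h4⟩ := h c hc hcS
  obtain ⟨c'', k1, k2, k3, k4⟩ := h' c' h1 h3
  exact ⟨c'', k1, h2.trans k2, k3, (h4.mono k2).inter k4⟩

theorem bas_univ (S : Set I) : Bas g F S univ := by
  intro c hc hcS
  refine ⟨c, hc, Finset.Subset.refl _, hcS, Or.inl ?_⟩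
  rw [union_univ]
  exact univ_mem

theorem Bas.biInter {S : Set I} {ι : Type*} (s : Finset ι) (X : ι → Set D)
    (h : ∀ i ∈ s, Bas g F S (X i)) : Bas g F S (⋂ i ∈ s, X i) := by
  classical
  induction s using Finset.induction_on with
  | empty => simpa using bas_univ S
  | insert a s ha ih =>
    rw [Finset.set_biInter_insert]
    exact (h a (Finset.mem_insert_self _ _)).inter
      (ih (fun i hi => h i (Finset.mem_insert_of_mem hi)))

/-- the value of one function of the family is based on this function -/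
theorem bas_value (i : I) (k : ℕ) : Bas g F {i} {d | g i d = k} := by
  classical
  intro c hc hcS
  by_cases h : ∃ p ∈ c, p.1 = i
  · obtain ⟨p, hp, hpi⟩ := h
    refine ⟨c, hc, Finset.Subset.refl _, hcS, ?_⟩
    by_cases hk : p.2 = k
    · left
      apply Filter.univ_mem'
      intro d
      by_cases hd : d ∈ Bx g c
      · right
        show g i d = k
        rw [← hpi, ← hk]
        exact hd p hp
      · exact Or.inl hd
    · right
      apply Filter.univ_mem'
      intro d
      by_cases hd : d ∈ Bx g c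
      · right
        intro h1
        apply hk
        rw [← hd p hp, hpi]
        exact h1
      · exact Or.inl hd
  · push Not at h
    refine ⟨insert (i, k) c, ?_, Finset.subset_insert _ _, ?_, Or.inl ?_⟩
    · intro p hp q hq hpq
      rcases Finset.mem_insert.1 hp with h1 | h1 <;> rcases Finset.mem_insert.1 hq with h2 | h2
      · rw [h1, h2]
      · exact absurd (by rw [← hpq, h1]) (h q h2)
      · exact absurd (by rw [hpq, h2]) (h p h1)
      · exact hc p h1 q h2 hpq
    · intro p hp
      rcases Finset.mem_insert.1 hp with h1 | h1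
      · rw [h1]; rfl
      · exact hcS p h1
    · apply Filter.univ_mem'
      intro d
      by_cases hd : d ∈ Bx g (insert (i, k) c)
      · right
        exact hd (i, k) (Finset.mem_insert_self _ _)
      · exact Or.inl hd

/-- the set where `g i` is at most `f` is based on `S`, if `i ∈ S` and `f` is based on `S` -/
theorem bas_le {S : Set I} {i : I} (hi : i ∈ S) {f : D → ℕ}
    (hf : ∀ m : ℕ, Bas g F S {d | m ≤ f d}) : Bas g F S {d | g i d ≤ f d} := by
  classical
  intro c hc hcS
  -- first decide the value of `g i`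
  have h0 : ∃ c' k, Fn c' ∧ c ⊆ c' ∧ Ov S c' ∧ Bx g c' ⊆ {d | g i d = k} := by
    by_cases h : ∃ p ∈ c, p.1 = i
    · obtain ⟨p, hp, hpi⟩ := h
      refine ⟨c, p.2, hc, Finset.Subset.refl _, hcS, fun d hd => ?_⟩
      show g i d = p.2
      rw [← hpi]
      exact hd p hp
    · push Not at h
      refine ⟨insert (i, 0) c, 0, ?_, Finset.subset_insert _ _, ?_, ?_⟩
      · intro p hp q hq hpq
        rcases Finset.mem_insert.1 hp with h1 | h1 <;> rcases Finset.mem_insert.1 hq with h2 | h2
        · rw [h1, h2]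
        · exact absurd (by rw [← hpq, h1]) (h q h2)
        · exact absurd (by rw [hpq, h2]) (h p h1)
        · exact hc p h1 q h2 hpq
      · intro p hp
        rcases Finset.mem_insert.1 hp with h1 | h1
        · rw [h1]; exact hi
        · exact hcS p h1
      · intro d hd
        exact hd (i, 0) (Finset.mem_insert_self _ _)
  obtain ⟨c', k, h1, h2, h3, h4⟩ := h0
  obtain ⟨c'', k1, k2, k3, k4⟩ := hf k c' h1 h3
  refine ⟨c'', k1, h2.trans k2, k3, ?_⟩
  have h5 : Bx g c'' ⊆ {d | g i d = k} := (bx_anti k2).trans h4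
  rcases k4 with k4 | k4
  · left
    filter_upwards [k4] with d hd
    by_cases hdc : d ∈ Bx g c''
    · right
      rcases hd with hd | hd
      · exact absurd hdc hd
      · have h6 : g i d = k := h5 hdc
        have h7 : k ≤ f d := hd
        show g i d ≤ f d
        omega
    · exact Or.inl hdc
  · right
    filter_upwards [k4] with d hd
    by_cases hdc : d ∈ Bx g c''
    · right
      rcases hd with hd | hd
      · exact absurd hdc hd
      · have h6 : g i d = k := h5 hdc
        have h7 : ¬ k ≤ f d := hd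
        show ¬ g i d ≤ f d
        omega
    · exact Or.inl hdc

theorem bas_ge {S : Set I} {i : I} (hi : i ∈ S) (m : ℕ) : Bas g F S {d | m ≤ g i d} := by
  have h1 : ∀ k : ℕ, Bas g F S {d | g i d = k} := fun k =>
    (bas_value i k).mono (singleton_subset_iff.2 hi)
  have h2 : {d | m ≤ g i d} = ⋂ k ∈ Finset.range m, ({d | g i d = k} : Set D)ᶜ := by
    ext d
    simp only [mem_ofPred_eq, mem_iInter, Finset.mem_range, mem_compl_iff]
    constructor
    · intro h k hk h3
      omega
    · intro h
      by_contra h3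
      exact h (g i d) (by omega) rfl
  rw [h2]
  exact Bas.biInter _ _ (fun k _ => (h1 k).compl)

/-- a positive set based on `S` contains, modulo `F`, the set of a condition over `S` -/
theorem Mx.exists_cond (hF : Mx g F) {S : Set I} {X : Set D} (hX : Bas g F S X) (hp : Xᶜ ∉ F) :
    ∃ c, Fn c ∧ Ov S c ∧ (Bx g c)ᶜ ∪ X ∈ F := by
  classical
  by_contra hcon
  push Not at hcon
  apply hp
  apply hF.max (F ⊓ 𝓟 Xᶜ) inf_le_left _ (mem_inf_of_right (mem_principal_self _))
  intro e he hn
  rw [mem_inf_principal] at hn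
  have h0 : Fn (e.filter (fun p => p.1 ∈ S)) := fun p hp q hq =>
    he p (Finset.mem_filter.1 hp).1 q (Finset.mem_filter.1 hq).1
  obtain ⟨c', h1, h2, h3, h4⟩ := hX _ h0 (fun p hp => (Finset.mem_filter.1 hp).2)
  rcases h4 with h4 | h4
  · exact hcon c' h1 h3 h4
  · have h5 : Fn (e ∪ c') :=
      fn_union_of_ov he h1 h3 (fun p hp hpS => h2 (Finset.mem_filter.2 ⟨hp, hpS⟩))
    apply hF.pos _ h5
    filter_upwards [h4, hn] with d hd1 hd2
    rw [bx_union]
    rintro ⟨h6, h7⟩
    rcases hd1 with hd1 | hd1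
    · exact hd1 h7
    · exact hd2 hd1 h6

theorem countable_ov {S : Set I} (hS : S.Countable) :
    {c : Finset (I × ℕ) | Ov S c}.Countable := by
  have h1 : (S ×ˢ (univ : Set ℕ)).Countable := hS.prod (countable_univ)
  have h2 := Set.countable_ofPred_finite_subset h1
  have h3 : (fun c : Finset (I × ℕ) => (c : Set (I × ℕ))) '' {c : Finset (I × ℕ) | Ov S c} ⊆
      {t | t.Finite ∧ t ⊆ S ×ˢ (univ : Set ℕ)} := by
    rintro _ ⟨c, hc, rfl⟩
    exact ⟨c.finite_toSet, fun p hp => ⟨hc p hp, mem_univ _⟩⟩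
  exact Set.countable_of_injective_of_countable_image
    (Finset.coe_injective.injOn) (h2.mono h3)

/-- every set is based on countably many functions of the family -/
theorem Mx.exists_countable (hF : Mx g F) (X : Set D) :
    ∃ S : Set I, S.Countable ∧ Bas g F S X := by
  classical
  choose e he using fun c : {c : Finset (I × ℕ) // Fn c} => hF.dens X c.1 c.2
  -- the domain of a condition
  let dm : Finset (I × ℕ) → Set I := fun c => {i | ∃ p ∈ c, p.1 = i}
  have hdm : ∀ c, (dm c).Countable := by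
    intro c
    have : dm c = Prod.fst '' (c : Set (I × ℕ)) := by
      ext i; constructor
      · rintro ⟨p, hp, rfl⟩; exact ⟨p, hp, rfl⟩
      · rintro ⟨p, hp, rfl⟩; exact ⟨p, hp, rfl⟩
    rw [this]
    exact (c.finite_toSet.image _).countable
  let T : Set I → Set I := fun S => S ∪ ⋃ c ∈ {c : {c : Finset (I × ℕ) // Fn c} | Ov S c.1}, dm (e c)
  have hT : ∀ S, S.Countable → (T S).Countable := by
    intro S hS
    refine hS.union (Set.Countable.biUnion ?_ (fun c _ => hdm _))
    exact (countable_ov hS).preimage (f := Subtype.val) Subtype.val_injective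
  let R : ℕ → Set I := fun n => n.rec ∅ (fun _ S => T S)
  have hR0 : ∀ n, R (n + 1) = T (R n) := fun n => rfl
  have hRc : ∀ n, (R n).Countable := by
    intro n
    induction n with
    | zero => exact countable_empty
    | succ n ih => rw [hR0]; exact hT _ ih
  have hRm : Monotone R := monotone_nat_of_le_succ (fun n => by rw [hR0]; exact subset_union_left)
  refine ⟨⋃ n, R n, countable_iUnion hRc, ?_⟩
  intro c hc hcS
  have h1 : ∃ n, Ov (R n) c := by
    have : ∀ c : Finset (I × ℕ), Ov (⋃ n, R n) c → ∃ n, Ov (R n) c := by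
      intro c
      induction c using Finset.induction_on with
      | empty => intro _; exact ⟨0, fun p hp => absurd hp (Finset.notMem_empty _)⟩
      | insert a s ha ih =>
        intro h
        obtain ⟨n, hn⟩ := ih (fun p hp => h p (Finset.mem_insert_of_mem hp))
        obtain ⟨m, hm⟩ := mem_iUnion.1 (h a (Finset.mem_insert_self _ _))
        refine ⟨Nat.max n m, fun p hp => ?_⟩
        rcases Finset.mem_insert.1 hp with h1 | h1
        · rw [h1]; exact hRm (Nat.le_max_right _ _) hm
        · exact hRm (Nat.le_max_left _ _) (hn p h1)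
    exact this c hcS
  obtain ⟨n, hn⟩ := h1
  have h2 := he ⟨c, hc⟩
  refine ⟨e ⟨c, hc⟩, h2.1, h2.2.1, ?_, h2.2.2⟩
  intro p hp
  refine mem_iUnion.2 ⟨n + 1, ?_⟩
  rw [hR0]
  right
  exact mem_biUnion (x := (⟨c, hc⟩ : {c : Finset (I × ℕ) // Fn c})) hn ⟨p, hp, rfl⟩

end cond

end Pool.Agent.Q213.EP
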