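import Pool.Agent.Q213.EP.U

set_option autoImplicit false
set_option linter.style.haveILetI false
set_option linter.unusedSectionVars false

/-!
# Ultrafilters with prescribed lower cofinality (Shelah)

From an independent family `g i`, `i ∈ I`, of functions, where `I` is a well-order of uncountable
cofinality, we get an ultrafilter such that the classes of the `g i` are decreasing and coinitial
in the infinite part of the ultrapower.
-/

namespace Pool.Agent.Q213.EP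

open Set Filter

variable {I D : Type*} [LinearOrder I] {g : I → D → ℕ} {F : Filter D}

/-- the sets which have to be in the ultrafilter, given its trace `W` on the sets based on the
functions before `i` -/
def Gen (g : I → D → ℕ) (F : Filter D) (i : I) (W : Ultrafilter D) : Set (Set D) :=
  {X | (X ∈ W ∧ Bas g F (Iio i) X) ∨ (∃ m : ℕ, X = {d | m ≤ g i d}) ∨
    ∃ f : D → ℕ, (∀ m : ℕ, Bas g F (Iio i) {d | m ≤ f d} ∧ {d | m ≤ f d} ∈ W) ∧
      X = {d | g i d ≤ f d}}

/-- the filter generated by these sets -/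
def KF (g : I → D → ℕ) (F : Filter D) (i : I) (W : Ultrafilter D) : Filter D :=
  Filter.generate (Gen g F i W)

theorem gen_finite (i : I) (W : Ultrafilter D) (u : Set (Set D)) (hu : u.Finite)
    (hs : u ⊆ Gen g F i W) :
    ∃ m₀ : ℕ, ∀ m ≥ m₀, ∃ X ∈ W, Bas g F (Iio i) X ∧ X ∩ {d | g i d = m} ⊆ ⋂₀ u := by
  induction u, hu using Set.Finite.induction_on with
  | empty =>
    exact ⟨0, fun m _ => ⟨univ, Filter.univ_mem, bas_univ _, by simp⟩⟩
  | @insert a u _ _ ih =>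
    obtain ⟨m₀, hm⟩ := ih (fun x hx => hs (mem_insert_of_mem _ hx))
    rcases hs (mem_insert a u) with h | ⟨k, rfl⟩ | ⟨f, hf, rfl⟩
    · refine ⟨m₀, fun m h1 => ?_⟩
      obtain ⟨X, hX, hX1, hX2⟩ := hm m h1
      refine ⟨X ∩ a, Filter.inter_mem hX h.1, hX1.inter h.2, ?_⟩
      rintro d ⟨⟨h2, h3⟩, h4⟩
      rw [sInter_insert]
      exact ⟨h3, hX2 ⟨h2, h4⟩⟩
    · refine ⟨max m₀ k, fun m h1 => ?_⟩
      obtain ⟨X, hX, hX1, hX2⟩ := hm m (le_trans (le_max_left _ _) h1)
      refine ⟨X, hX, hX1, ?_⟩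
      rintro d ⟨h2, h4⟩
      rw [sInter_insert]
      refine ⟨?_, hX2 ⟨h2, h4⟩⟩
      have h5 : g i d = m := h4
      show k ≤ g i d
      rw [h5]
      exact le_trans (le_max_right _ _) h1
    · refine ⟨m₀, fun m h1 => ?_⟩
      obtain ⟨X, hX, hX1, hX2⟩ := hm m h1
      refine ⟨X ∩ {d | m ≤ f d}, Filter.inter_mem hX (hf m).2, hX1.inter (hf m).1, ?_⟩
      rintro d ⟨⟨h2, h3⟩, h4⟩
      rw [sInter_insert]
      refine ⟨?_, hX2 ⟨h2, h4⟩⟩
      have h5 : g i d = m := h4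
      have h6 : m ≤ f d := h3
      show g i d ≤ f d
      rw [h5]
      exact h6

theorem Mx.neBot_inf (hF : Mx g F) (i : I) (W : Ultrafilter D) (hW : (W : Filter D) ≤ F) :
    (F ⊓ KF g F i W).NeBot := by
  classical
  rw [Filter.inf_neBot_iff]
  intro Z hZ Y hY
  obtain ⟨u, hu, hfin, hsub⟩ := Filter.mem_generate_iff.1 hY
  obtain ⟨m, hm⟩ := gen_finite i W u hfin hu
  obtain ⟨X, hX, hX1, hX2⟩ := hm m (le_refl _)
  have hXF : Xᶜ ∉ F := fun h => (Ultrafilter.compl_mem_iff_notMem.1 (hW h)) hX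
  obtain ⟨c, hc, hcS, hcX⟩ := hF.exists_cond hX1 hXF
  have hfn : Fn (insert (i, m) c) := by
    intro p hp q hq hpq
    rcases Finset.mem_insert.1 hp with h1 | h1 <;> rcases Finset.mem_insert.1 hq with h2 | h2
    · rw [h1, h2]
    · have h3 := hcS q h2
      rw [h1] at hpq
      rw [← hpq] at h3
      exact absurd h3 (lt_irrefl i)
    · have h3 := hcS p h1
      rw [h2] at hpq
      rw [hpq] at h3
      exact absurd h3 (lt_irrefl i)
    · exact hc p h1 q h2 hpq
  by_contra hcon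
  rw [Set.not_nonempty_iff_eq_empty] at hcon
  apply hF.pos _ hfn
  filter_upwards [hcX, hZ] with d h1 h2 h3
  have h4 : d ∈ Bx g c := bx_anti (Finset.subset_insert _ _) h3
  have h5 : g i d = m := h3 (i, m) (Finset.mem_insert_self _ _)
  have h6 : d ∈ X := by
    rcases h1 with h1 | h1
    · exact absurd h4 h1
    · exact h1
  have h7 : d ∈ Z ∩ Y := ⟨h2, hsub (hX2 ⟨h6, h5⟩)⟩
  rw [hcon] at h7
  exact h7

theorem gen_sub {i j : I} (hij : i < j) {W W' : Ultrafilter D} (hW : (W' : Filter D) ≤ KF g F i W)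
    {X : Set D} (hX : X ∈ Gen g F i W) : X ∈ W' ∧ Bas g F (Iio j) X := by
  refine ⟨hW (Filter.mem_generate_of_mem hX), ?_⟩
  have hs : Iio i ⊆ Iio j := fun x hx => lt_trans hx hij
  rcases hX with h | ⟨k, rfl⟩ | ⟨f, hf, rfl⟩
  · exact h.2.mono hs
  · exact bas_ge (S := Iio j) hij k
  · exact bas_le (S := Iio j) hij (fun m => (hf m).1.mono hs)

theorem kf_le {i j : I} (hij : i < j) {W W' : Ultrafilter D}
    (hW : (W' : Filter D) ≤ KF g F i W) : KF g F j W' ≤ KF g F i W := by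
  unfold KF
  rw [Filter.le_generate_iff]
  intro X hX
  exact Filter.mem_generate_of_mem (Or.inl (gen_sub hij hW hX))

theorem Mx.neBot_fam (hF : Mx g F) {T : Set I} (hT : T.Nonempty) (W : I → Ultrafilter D)
    (h1 : ∀ j ∈ T, (W j : Filter D) ≤ F)
    (h2 : ∀ j ∈ T, ∀ i ∈ T, i < j → (W j : Filter D) ≤ KF g F i (W i)) :
    (F ⊓ ⨅ j : T, KF g F j.1 (W j.1)).NeBot := by
  haveI : Nonempty T := hT.to_subtype
  rw [inf_iInf]
  haveI : Nonempty D := by
    haveI := hF.neBot_inf hT.some (W hT.some) (h1 _ hT.some_mem)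
    exact (F ⊓ KF g F hT.some (W hT.some)).nonempty_of_neBot
  refine Filter.iInf_neBot_of_directed ?_ (fun j => hF.neBot_inf j.1 (W j.1) (h1 _ j.2))
  intro a b
  rcases lt_trichotomy a.1 b.1 with h | h | h
  · exact ⟨b, inf_le_inf_left _ (kf_le h (h2 _ b.2 _ a.2 h)), le_refl _⟩
  · have : a = b := Subtype.ext h
    subst this
    exact ⟨a, le_refl _, le_refl _⟩
  · exact ⟨a, le_refl _, inf_le_inf_left _ (kf_le h (h2 _ a.2 _ b.2 h))⟩

/-- the filter at the stage `i` -/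
def HF (g : I → D → ℕ) (F : Filter D) (i : I) (w : (j : I) → j < i → Ultrafilter D) : Filter D :=
  F ⊓ ⨅ j : Iio i, KF g F j.1 (w j.1 j.2)

open Classical in
/-- the ultrafilters at the stages `i` -/
noncomputable def Wf [WellFoundedLT I] [Nonempty D] (g : I → D → ℕ) (F : Filter D) :
    I → Ultrafilter D :=
  WellFounded.fix (wellFounded_lt : WellFounded (fun a b : I => a < b))
    (fun i w => if h : (HF g F i w).NeBot then @Ultrafilter.of D (HF g F i w) h
      else pure (Classical.arbitrary D))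

theorem wf_le [WellFoundedLT I] [Nonempty D] (i : I)
    (h : (F ⊓ ⨅ j : Iio i, KF g F j.1 (Wf g F j.1)).NeBot) :
    (Wf g F i : Filter D) ≤ F ⊓ ⨅ j : Iio i, KF g F j.1 (Wf g F j.1) := by
  have h1 : Wf g F i = @Ultrafilter.of D (F ⊓ ⨅ j : Iio i, KF g F j.1 (Wf g F j.1)) h := by
    unfold Wf
    rw [WellFounded.fix_eq]
    exact dif_pos h
  rw [h1]
  exact Ultrafilter.of_le _

theorem Mx.neBot (hF : Mx g F) : F.NeBot := by
  constructor
  intro h
  apply hF.pos ∅ (fun p hp => absurd hp (Finset.notMem_empty _))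
  rw [h]
  exact Filter.mem_bot

theorem Mx.wf_spec [WellFoundedLT I] [Nonempty D] (hF : Mx g F) (i : I) :
    (Wf g F i : Filter D) ≤ F ∧ ∀ j < i, (Wf g F i : Filter D) ≤ KF g F j (Wf g F j) := by
  induction i using WellFoundedLT.induction with
  | ind i ih =>
    have h : (F ⊓ ⨅ j : Iio i, KF g F j.1 (Wf g F j.1)).NeBot := by
      by_cases hne : (Iio i).Nonempty
      · exact hF.neBot_fam hne _ (fun j hj => (ih j hj).1) (fun j hj k _ hkj => (ih j hj).2 k hkj)
      · haveI : IsEmpty (Iio i) := ⟨fun x => hne ⟨x.1, x.2⟩⟩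
        rw [iInf_of_empty, inf_top_eq]
        exact hF.neBot
    have h1 := wf_le i h
    refine ⟨h1.trans inf_le_left, fun j hj => ?_⟩
    exact (h1.trans inf_le_right).trans (iInf_le (fun j : Iio i => KF g F j.1 (Wf g F j.1)) ⟨j, hj⟩)

/-- **Ultrafilters with prescribed lower cofinality.** -/
theorem exists_low [WellFoundedLT I] [Nonempty I] (g : I → D → ℕ)
    (hg : ∀ c, Fn c → (Bx g c).Nonempty)
    (hcof : ∀ s : Set I, s.Countable → ∃ b, ∀ i ∈ s, i < b) :
    ∃ U : Ultrafilter D, (∀ (i : I) (m : ℕ), {d | m ≤ g i d} ∈ U) ∧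
      ∀ f : D → ℕ, (∀ m : ℕ, {d | m ≤ f d} ∈ U) → ∃ b, ∀ j ≥ b, {d | g j d ≤ f d} ∈ U := by
  obtain ⟨F, hF⟩ := exists_mx hg
  haveI : Nonempty D := by
    haveI := hF.neBot
    exact F.nonempty_of_neBot
  have hne : (univ : Set I).Nonempty := univ_nonempty
  haveI h1 : (F ⊓ ⨅ j : (univ : Set I), KF g F j.1 (Wf g F j.1)).NeBot :=
    hF.neBot_fam hne _ (fun j _ => (hF.wf_spec j).1) (fun j _ k _ hkj => (hF.wf_spec j).2 k hkj)
  let U : Ultrafilter D := Ultrafilter.of (F ⊓ ⨅ j : (univ : Set I), KF g F j.1 (Wf g F j.1))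
  have hU : (U : Filter D) ≤ F ⊓ ⨅ j : (univ : Set I), KF g F j.1 (Wf g F j.1) :=
    Ultrafilter.of_le _
  have hUK : ∀ j, (U : Filter D) ≤ KF g F j (Wf g F j) := fun j =>
    (hU.trans inf_le_right).trans
      (iInf_le (fun j : (univ : Set I) => KF g F j.1 (Wf g F j.1)) ⟨j, mem_univ j⟩)
  refine ⟨U, fun i m => ?_, fun f hf => ?_⟩
  · exact hUK i (Filter.mem_generate_of_mem (Or.inr (Or.inl ⟨m, rfl⟩)))
  · choose S hS hS2 using fun m : ℕ => hF.exists_countable {d | m ≤ f d}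
    obtain ⟨b, hb⟩ := hcof (⋃ m, S m) (countable_iUnion hS)
    refine ⟨b, fun j hj => ?_⟩
    have hbas : ∀ m : ℕ, Bas g F (Iio j) {d | m ≤ f d} := fun m =>
      (hS2 m).mono (fun i hi => lt_of_lt_of_le (hb i (mem_iUnion.2 ⟨m, hi⟩)) hj)
    have hW : ∀ m : ℕ, {d | m ≤ f d} ∈ Wf g F j := by
      intro m
      by_contra hn
      have h2 : ({d | m ≤ f d} : Set D)ᶜ ∈ Wf g F j := Ultrafilter.compl_mem_iff_notMem.2 hn
      have h3 : ({d | m ≤ f d} : Set D)ᶜ ∈ U :=
        hUK j (Filter.mem_generate_of_mem (Or.inl ⟨h2, (hbas m).compl⟩))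
      exact (Ultrafilter.compl_mem_iff_notMem.1 h3) (hf m)
    exact hUK j (Filter.mem_generate_of_mem (Or.inr (Or.inr ⟨f, fun m => ⟨hbas m, hW m⟩, rfl⟩)))

end Pool.Agent.Q213.EP
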